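import Mathlib

namespace Pool.Agent.X331.SF

/-- number of digits in place `g` -/
def b (g : ℕ) : ℕ := (g + 1) * 2 ^ (g + 5)

/-- mixed radix base -/
def M : ℕ → ℕ
  | 0 => 8192
  | (g + 1) => b g * M g

/-- digits -/
def a (g n : ℕ) : ℕ := (n / M g) % b g

lemma b_ge (g : ℕ) : 32 * 2 ^ g ≤ b g := by
  unfold b
  rw [pow_add]
  have : 0 < 2 ^ g := by positivity
  nlinarith

lemma b_ge32 (g : ℕ) : 32 ≤ b g := by
  have h1 := b_ge g
  have : 1 ≤ 2 ^ g := Nat.one_le_two_pow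
  omega

lemma b_gt (g : ℕ) : g < b g := by
  have h1 := b_ge g
  have : g < 2 ^ g := Nat.lt_two_pow_self
  omega

lemma b_pos (g : ℕ) : 0 < b g := by have := b_ge32 g; omega

lemma M_pos (g : ℕ) : 0 < M g := by
  induction g with
  | zero => simp [M]
  | succ g ih => simp only [M]; exact Nat.mul_pos (b_pos g) ih

lemma M_succ (g : ℕ) : M (g + 1) = b g * M g := rfl

lemma M_dvd {g h : ℕ} (hgh : g ≤ h) : M g ∣ M h := by
  induction h with
  | zero => rw [Nat.le_zero.1 hgh]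
  | succ h ih =>
    rcases Nat.lt_or_eq_of_le hgh with h1 | h1
    · exact (ih (by omega)).trans (Dvd.intro_left _ rfl)
    · rw [h1]

lemma M_le {g h : ℕ} (hgh : g ≤ h) : M g ≤ M h := Nat.le_of_dvd (M_pos h) (M_dvd hgh)

lemma M_succ_ge (g : ℕ) : 32 * M g ≤ M (g + 1) := by
  rw [M_succ]; exact Nat.mul_le_mul_right _ (b_ge32 g)

lemma M_lt {g h : ℕ} (hgh : g < h) : M g < M h := by
  have h1 := M_succ_ge g
  have h2 := M_pos g
  have h3 : M (g + 1) ≤ M h := M_le hgh
  omega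

lemma M_inj {g h : ℕ} (hgh : M g < M h) : g < h := by
  by_contra hc
  push Not at hc
  have := M_le hc
  omega

lemma M_ge (g : ℕ) : 8192 * (g + 1) ≤ M g := by
  induction g with
  | zero => simp [M]
  | succ g ih =>
    have := M_succ_ge g
    have := M_pos g
    omega

lemma b_sq (g : ℕ) : 5 * b g ^ 2 ≤ M g := by
  induction g with
  | zero => simp [M, b]
  | succ g ih =>
    have h1 : b (g + 1) ≤ 4 * b g := by
      unfold b
      have : 2 ^ (g + 1 + 5) = 2 * 2 ^ (g + 5) := by ring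
      rw [this]
      have : 0 < 2 ^ (g + 5) := by positivity
      nlinarith
    have h2 := b_ge32 g
    rw [M_succ]
    have h3 : b (g + 1) ^ 2 ≤ 16 * b g ^ 2 := by
      calc b (g + 1) ^ 2 ≤ (4 * b g) ^ 2 := Nat.pow_le_pow_left h1 2
        _ = 16 * b g ^ 2 := by ring
    calc 5 * b (g + 1) ^ 2 ≤ 5 * (16 * b g ^ 2) := by omega
      _ = 16 * (5 * b g ^ 2) := by ring
      _ ≤ b g * (5 * b g ^ 2) := Nat.mul_le_mul_right _ (by omega)
      _ ≤ b g * M g := Nat.mul_le_mul_left _ ih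

lemma dvd_M {k g : ℕ} (hk : 1 ≤ k) (hg : k ≤ g) : k ∣ M g := by
  have h1 : k ∣ b (k - 1) := by
    unfold b
    rw [Nat.sub_add_cancel hk]
    exact Dvd.intro _ rfl
  have h2 : b (k - 1) ∣ M (k - 1 + 1) := by rw [M_succ]; exact Dvd.intro _ rfl
  rw [Nat.sub_add_cancel hk] at h2
  exact h1.trans (h2.trans (M_dvd hg))

def Good (n : ℕ) : Prop := ∀ g, a g n + 3 < b g

def A (k : ℕ) : Set ℕ := {n | n % M (k + 1) = M k ∧ ∀ j, k < j → a j n ≠ 1 ∧ a j n + 3 < b j}

lemma good_zero : Good 0 := by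
  intro g
  unfold a
  rw [Nat.zero_div, Nat.zero_mod]
  have := b_ge32 g
  omega

lemma A_form {k n : ℕ} (h : n ∈ A k) : ∃ Q, n = M k * (1 + b k * Q) := by
  refine ⟨n / M (k + 1), ?_⟩
  have h1 := Nat.div_add_mod n (M (k + 1))
  rw [h.1] at h1
  conv_lhs => rw [← h1]
  rw [M_succ]
  ring

lemma A_good {k n : ℕ} (h : n ∈ A k) : Good n := by
  intro g
  obtain ⟨Q, hQ⟩ := A_form h
  have hb := b_ge32 g
  rcases lt_trichotomy g k with h1 | h1 | h1
  · obtain ⟨c, hc⟩ := M_dvd (show g + 1 ≤ k from h1)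
    have : n = M g * (b g * (c * (1 + b k * Q))) := by
      rw [hQ, hc, M_succ]; ring
    unfold a
    rw [this, Nat.mul_div_cancel_left _ (M_pos g), Nat.mul_mod_right]
    omega
  · subst h1
    unfold a
    rw [hQ, Nat.mul_div_cancel_left _ (M_pos g), Nat.add_mul_mod_self_left,
      Nat.mod_eq_of_lt (by omega)]
    omega
  · exact (h.2 g h1).2

/-- the hole property -/
lemma hole {m m' g c : ℕ} (hm' : Good m') :
    (M g : ℤ) < |(m : ℤ) - m' - (((a g m + 2) * M g + c * M (g + 1) : ℕ) : ℤ)| := by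
  by_contra hcon
  push Not at hcon
  have hMp : (0 : ℤ) < M g := by exact_mod_cast M_pos g
  have hbp := b_ge32 g
  -- decomposition of m
  obtain ⟨r, Q, hr, hm⟩ : ∃ r Q : ℕ, r < M g ∧ m = M g * (b g * Q + a g m) + r := by
    refine ⟨m % M g, m / M g / b g, Nat.mod_lt _ (M_pos g), ?_⟩
    unfold a
    rw [Nat.div_add_mod, Nat.div_add_mod]
  obtain ⟨r', Q', hr', hm1⟩ : ∃ r Q : ℕ, r < M g ∧ m' = M g * (b g * Q + a g m') + r := by
    refine ⟨m' % M g, m' / M g / b g, Nat.mod_lt _ (M_pos g), ?_⟩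
    unfold a
    rw [Nat.div_add_mod, Nat.div_add_mod]
  have ha' := hm' g
  set x := a g m with hx
  set x' := a g m' with hx'
  have e1 : (m : ℤ) = M g * (b g * Q + x) + r := by exact_mod_cast hm
  have e2 : (m' : ℤ) = M g * (b g * Q' + x') + r' := by exact_mod_cast hm1
  have hr1 : (r : ℤ) < M g := by exact_mod_cast hr
  have hr2 : (r' : ℤ) < M g := by exact_mod_cast hr'
  have hr0 : (0 : ℤ) ≤ r := by positivity
  have hr0' : (0 : ℤ) ≤ r' := by positivity
  rw [e1, e2, M_succ] at hcon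
  push_cast at hcon
  obtain ⟨c1, c2⟩ := abs_le.1 hcon
  -- z
  set z : ℤ := b g * (Q - Q' - c) - x' - 2 with hz
  have hz1 : (M g : ℤ) * z < M g * 2 := by
    rw [hz]; nlinarith
  have hz2 : (M g : ℤ) * (-2) < M g * z := by
    rw [hz]; nlinarith
  have hz1' : z < 2 := lt_of_mul_lt_mul_left hz1 hMp.le
  have hz2' : -2 < z := lt_of_mul_lt_mul_left hz2 hMp.le
  have hK : (b g : ℤ) * (Q - Q' - c) = x' + 2 + z := by rw [hz]; ring
  have hx3 : (x' : ℤ) + 3 < b g := by exact_mod_cast ha'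
  have hx0 : (0 : ℤ) ≤ x' := by positivity
  set K : ℤ := (Q : ℤ) - Q' - c with hKdef
  have hb0 : (0 : ℤ) < b g := by exact_mod_cast b_pos g
  rcases le_or_gt K 0 with h | h
  · have : (b g : ℤ) * K ≤ 0 := mul_nonpos_of_nonneg_of_nonpos hb0.le h
    omega
  · have : (b g : ℤ) * 1 ≤ b g * K := mul_le_mul_of_nonneg_left (by omega) hb0.le
    omega

lemma A_ge {k n : ℕ} (h : n ∈ A k) : M k ≤ n := by
  obtain ⟨Q, hQ⟩ := A_form h
  rw [hQ]
  exact Nat.le_mul_of_pos_right _ (by omega)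

lemma sep_lt {k k' m m' : ℕ} (hkk : k < k') (hm : m ∈ A k) (hm' : m' ∈ A k') :
    (M (k' - 1) : ℤ) ≤ |(m : ℤ) - m'| := by
  by_contra hcon
  push Not at hcon
  obtain ⟨j, rfl⟩ : ∃ j, k' = j + 1 := ⟨k' - 1, by omega⟩
  rw [Nat.add_sub_cancel] at hcon
  obtain ⟨Q, hQ⟩ := A_form hm'
  have hg := A_good hm
  have hbj := b_ge32 j
  have hbj1 := b_ge32 (j + 1)
  rcases le_or_gt m' m with h | h
  · -- m = m' + t
    obtain ⟨t, rfl⟩ := Nat.exists_eq_add_of_le h
    have ht : t < M j := by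
      push_cast at hcon
      rw [add_sub_cancel_left, abs_of_nonneg (by positivity)] at hcon
      exact_mod_cast hcon
    have hMj : M j ≤ M (j + 1) := M_le (by omega)
    have : a (j + 1) (m' + t) = 1 := by
      unfold a
      rw [hQ, Nat.mul_add_div (M_pos _), Nat.div_eq_of_lt (by omega), Nat.add_zero,
        Nat.add_mul_mod_self_left, Nat.mod_eq_of_lt (by omega)]
    exact (hm.2 (j + 1) hkk).1 this
  · obtain ⟨t, rfl⟩ := Nat.exists_eq_add_of_lt h
    have ht : t + 1 < M j := by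
      push_cast at hcon
      rw [abs_sub_comm] at hcon
      have e : ((m : ℤ) + t + 1 - m) = t + 1 := by ring
      rw [e, abs_of_nonneg (by positivity)] at hcon
      exact_mod_cast hcon
    have h1 : m + t + 1 = M j * (b j * (1 + b (j + 1) * Q)) := by
      rw [hQ, M_succ]; ring
    set K := 1 + b (j + 1) * Q with hK
    have hKpos : 1 ≤ K := by rw [hK]; omega
    -- m = M j * (b j * K - 1) + (M j - t - 1)
    have h2 : 1 ≤ b j * K := by
      calc 1 ≤ b j * 1 := by omega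
        _ ≤ b j * K := Nat.mul_le_mul_left _ hKpos
    have h3 : m = M j * (b j * K - 1) + (M j - (t + 1)) := by
      have e : M j * (b j * K) = M j * (b j * K - 1) + M j := by
        rw [← Nat.mul_succ]
        congr 1
        omega
      rw [e] at h1
      omega
    have h4 : a j m = b j - 1 := by
      unfold a
      have hlt : M j - (t + 1) < M j := by omega
      rw [h3, Nat.mul_add_div (M_pos _), Nat.div_eq_of_lt hlt, Nat.add_zero]
      obtain ⟨K', hK'⟩ : ∃ K', K = K' + 1 := ⟨K - 1, by omega⟩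
      have e : b j * K - 1 = (b j - 1) + b j * K' := by
        rw [hK', Nat.mul_succ]
        omega
      rw [e, Nat.add_mul_mod_self_left, Nat.mod_eq_of_lt (by omega)]
    have := hg j
    omega

lemma sep_eq {k m m' : ℕ} (hm : m ∈ A k) (hm' : m' ∈ A k) (hne : m ≠ m') :
    (M (k + 1) : ℤ) ≤ |(m : ℤ) - m'| := by
  have h1 : (m : ℤ) % M (k + 1) = (m' : ℤ) % M (k + 1) := by
    have : m % M (k + 1) = m' % M (k + 1) := by rw [hm.1, hm'.1]
    exact_mod_cast this
  have h2 : (M (k + 1) : ℤ) ∣ m - m' :=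
    Int.ModEq.dvd (show (m' : ℤ) ≡ m [ZMOD (M (k + 1) : ℤ)] from h1.symm)
  exact Int.le_of_dvd (abs_pos.2 (sub_ne_zero.2 (by exact_mod_cast hne))) ((dvd_abs _ _).2 h2)

/-- separation -/
lemma sep {k k' m m' : ℕ} (hm : m ∈ A k) (hm' : m' ∈ A k') (hne : m ≠ m') :
    (M (max k k' - 1) : ℤ) ≤ |(m : ℤ) - m'| := by
  rcases lt_trichotomy k k' with h | h | h
  · rw [max_eq_right h.le]
    exact sep_lt h hm hm'
  · subst h
    rw [max_self]
    have := sep_eq hm hm' hne
    have h2 : (M (k - 1) : ℤ) ≤ M (k + 1) := by exact_mod_cast M_le (by omega)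
    omega
  · rw [max_eq_left h.le, abs_sub_comm]
    exact sep_lt h hm' hm

lemma disj {k k' m : ℕ} (hm : m ∈ A k) (hm' : m ∈ A k') : k = k' := by
  by_contra hne
  rcases Nat.lt_or_gt_of_ne hne with h | h
  · have := sep_lt h hm hm'
    rw [sub_self, abs_zero] at this
    have h2 : (0 : ℤ) < M (k' - 1) := by exact_mod_cast M_pos _
    omega
  · have := sep_lt h hm' hm
    rw [sub_self, abs_zero] at this
    have h2 : (0 : ℤ) < M (k - 1) := by exact_mod_cast M_pos _
    omega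

end Pool.Agent.X331.SF
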