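import Mathlib
import Pool.Agent.X331.SF.Arith

namespace Pool.Agent.X331.SF

open Finset

lemma ext_mem {k J d e : ℕ} (hJ : k + 1 ≤ J) (hd : d ∈ A k) (hdJ : d < M J) (he : e ≠ 1)
    (heb : e + 3 < b J) : e * M J + d ∈ A k := by
  constructor
  · obtain ⟨c, hc⟩ := M_dvd hJ
    rw [hc]
    have : e * (M (k + 1) * c) + d = d + M (k + 1) * (e * c) := by ring
    rw [this, Nat.add_mul_mod_self_left, hd.1]
  · intro j hj
    rcases lt_trichotomy j J with h | h | h
    · obtain ⟨c, hc⟩ := M_dvd (show j + 1 ≤ J from h)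
      have : a j (e * M J + d) = a j d := by
        unfold a
        rw [hc, M_succ]
        have e1 : e * (b j * M j * c) + d = M j * (b j * (e * c)) + d := by ring
        rw [e1, Nat.mul_add_div (M_pos _), Nat.mul_add_mod]
      rw [this]
      exact hd.2 j hj
    · subst h
      have : a j (e * M j + d) = e := by
        unfold a
        rw [mul_comm e, Nat.mul_add_div (M_pos _), Nat.div_eq_of_lt hdJ, Nat.add_zero,
          Nat.mod_eq_of_lt (by omega)]
      rw [this]
      exact ⟨he, heb⟩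
    · have hlt : e * M J + d < M j := by
        calc e * M J + d < e * M J + M J := by omega
          _ = (e + 1) * M J := by ring
          _ ≤ b J * M J := Nat.mul_le_mul_right _ (by omega)
          _ = M (J + 1) := (M_succ J).symm
          _ ≤ M j := M_le h
      unfold a
      rw [Nat.div_eq_of_lt hlt, Nat.zero_mod]
      have := b_ge32 j
      exact ⟨by omega, by omega⟩

noncomputable def cnt (k N : ℕ) : ℕ := (A k ∩ Set.Iio N).ncard

lemma fin_cnt (k N : ℕ) : (A k ∩ Set.Iio N).Finite := (Set.finite_Iio N).subset Set.inter_subset_right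

lemma step {k J N t : ℕ} (hJ : k + 1 ≤ J) (ht : t * M J ≤ N) (htb : t + 3 ≤ b J) :
    cnt k (M J) * ((range t).erase 1).card ≤ cnt k N := by
  classical
  have hfin := fin_cnt k (M J)
  set D := hfin.toFinset with hD
  have hDc : D.card = cnt k (M J) := by
    unfold cnt
    rw [Set.ncard_eq_toFinset_card _ hfin]
  set Im := (D ×ˢ ((range t).erase 1)).image (fun p : ℕ × ℕ => p.2 * M J + p.1) with hIm
  have hDm : ∀ d ∈ D, d ∈ A k ∧ d < M J := by
    intro d hd
    have := hfin.mem_toFinset.1 hd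
    exact ⟨this.1, this.2⟩
  have hImc : Im.card = D.card * ((range t).erase 1).card := by
    rw [hIm, Finset.card_image_of_injOn, Finset.card_product]
    rintro ⟨d, e⟩ h1 ⟨d', e'⟩ h2 heq
    simp only [coe_product, Set.mem_prod, mem_coe] at h1 h2
    have hd := (hDm d h1.1).2
    have hd' := (hDm d' h2.1).2
    have heq' : e * M J + d = e' * M J + d' := heq
    have e1 : (e * M J + d) / M J = e := by
      rw [mul_comm e, Nat.mul_add_div (M_pos _), Nat.div_eq_of_lt hd, Nat.add_zero]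
    have e2 : (e' * M J + d') / M J = e' := by
      rw [mul_comm e', Nat.mul_add_div (M_pos _), Nat.div_eq_of_lt hd', Nat.add_zero]
    have e3 : e = e' := by rw [← e1, heq', e2]
    subst e3
    have : d = d' := by omega
    rw [this]
  rw [← hDc, ← hImc]
  unfold cnt
  rw [← Set.ncard_coe_finset]
  apply Set.ncard_le_ncard _ (fin_cnt k N)
  intro x hx
  rw [mem_coe, hIm, Finset.mem_image] at hx
  obtain ⟨⟨d, e⟩, hp, rfl⟩ := hx
  obtain ⟨h1, h2⟩ := Finset.mem_product.1 hp
  obtain ⟨h3, h4⟩ := Finset.mem_erase.1 h2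
  have h5 := Finset.mem_range.1 h4
  obtain ⟨h6, h7⟩ := hDm d h1
  simp only at h1 h2 h3 h4 h5 h6 h7 ⊢
  refine ⟨ext_mem hJ h6 h7 h3 (by omega), ?_⟩
  rw [Set.mem_Iio]
  calc e * M J + d < e * M J + M J := by omega
    _ = (e + 1) * M J := by ring
    _ ≤ t * M J := Nat.mul_le_mul_right _ (by omega)
    _ ≤ N := ht

lemma base (k : ℕ) : 1 ≤ cnt k (M (k + 1)) := by
  unfold cnt
  have hmem : M k ∈ A k ∩ Set.Iio (M (k + 1)) := by
    refine ⟨⟨Nat.mod_eq_of_lt (M_lt (by omega)), ?_⟩, M_lt (by omega)⟩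
    intro j hj
    unfold a
    rw [Nat.div_eq_of_lt (M_lt hj), Nat.zero_mod]
    have := b_ge32 j
    exact ⟨by omega, by omega⟩
  exact (Set.ncard_pos (fin_cnt _ _)).2 ⟨_, hmem⟩

lemma card_er {t : ℕ} (ht : 1 ≤ t) : t - 1 ≤ ((range t).erase 1).card ∧ 1 ≤ ((range t).erase 1).card := by
  constructor
  · have := Finset.pred_card_le_card_erase (s := range t) (a := 1)
    rwa [card_range] at this
  · apply Finset.card_pos.2
    exact ⟨0, Finset.mem_erase.2 ⟨by norm_num, mem_range.2 ht⟩⟩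

lemma lower {k J : ℕ} (hJ : k + 1 ≤ J) :
    (1 / 2 + (1 / 2 : ℝ) ^ (J + 1)) * M J ≤ cnt k (M J) * M (k + 1) := by
  induction J with
  | zero => omega
  | succ J ih =>
    rcases Nat.lt_or_eq_of_le hJ with h | h
    · have ih' := ih (by omega)
      have hb := b_ge J
      have hb32 := b_ge32 J
      have h1 := step (k := k) (J := J) (N := M (J + 1)) (t := b J - 3) (by omega)
        (by rw [M_succ]; exact Nat.mul_le_mul_right _ (by omega)) (by omega)
      have h2 := (card_er (t := b J - 3) (by omega)).1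
      have h3 : cnt k (M J) * (b J - 4) ≤ cnt k (M (J + 1)) :=
        le_trans (Nat.mul_le_mul_left _ (by omega)) h1
      have h4 : (cnt k (M J) : ℝ) * (b J - 4) ≤ cnt k (M (J + 1)) := by
        have : ((cnt k (M J) * (b J - 4) : ℕ) : ℝ) ≤ cnt k (M (J + 1)) := by exact_mod_cast h3
        rw [Nat.cast_mul, Nat.cast_sub (by omega)] at this
        exact_mod_cast this
      have hbR : (32 : ℝ) * 2 ^ J ≤ b J := by exact_mod_cast hb
      have hx : (0 : ℝ) < (1 / 2 : ℝ) ^ J := by positivity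
      have hx1 : (1 / 2 : ℝ) ^ J ≤ 1 := pow_le_one₀ (by norm_num) (by norm_num)
      have hx2 : (1 / 2 : ℝ) ^ J * 2 ^ J = 1 := by rw [← mul_pow]; norm_num
      have hM0 : (0 : ℝ) < M J := by exact_mod_cast M_pos J
      have hMk : (0 : ℝ) < M (k + 1) := by exact_mod_cast M_pos _
      have hbx : 32 ≤ (b J : ℝ) * (1 / 2 : ℝ) ^ J := by
        calc (32 : ℝ) = 32 * ((1 / 2 : ℝ) ^ J * 2 ^ J) := by rw [hx2]; ring
          _ = (32 * 2 ^ J) * (1 / 2 : ℝ) ^ J := by ring
          _ ≤ _ := mul_le_mul_of_nonneg_right hbR hx.le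
      have hb4 : (0 : ℝ) ≤ b J - 4 := by
        have : (32 : ℝ) ≤ b J := by exact_mod_cast hb32
        linarith
      rw [M_succ]
      push_cast
      calc (1 / 2 + (1 / 2 : ℝ) ^ (J + 1 + 1)) * ((b J : ℝ) * M J)
          ≤ (b J - 4) * ((1 / 2 + (1 / 2 : ℝ) ^ (J + 1)) * M J) := by
            have e1 : (1 / 2 : ℝ) ^ (J + 1 + 1) = (1 / 2 : ℝ) ^ J / 4 := by ring
            have e2 : (1 / 2 : ℝ) ^ (J + 1) = (1 / 2 : ℝ) ^ J / 2 := by ring
            rw [e1, e2]
            have : (1 / 2 + (1 / 2 : ℝ) ^ J / 4) * b J ≤ (b J - 4) * (1 / 2 + (1 / 2 : ℝ) ^ J / 2) := by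
              nlinarith
            nlinarith
        _ ≤ (b J - 4) * (cnt k (M J) * M (k + 1)) := mul_le_mul_of_nonneg_left ih' hb4
        _ = (cnt k (M J) * (b J - 4)) * M (k + 1) := by ring
        _ ≤ cnt k (M (J + 1)) * M (k + 1) := mul_le_mul_of_nonneg_right h4 hMk.le
        _ = cnt k (b J * M J) * M (k + 1) := by rw [M_succ]
    · have : J = k := by omega
      subst this
      have h1 : (1 : ℝ) ≤ cnt J (M (J + 1)) := by exact_mod_cast base J
      have hM0 : (0 : ℝ) < M (J + 1) := by exact_mod_cast M_pos _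
      have hx1 : (1 / 2 : ℝ) ^ (J + 1 + 1) ≤ 1 / 2 := by
        have : (1 / 2 : ℝ) ^ (J + 1 + 1) ≤ (1 / 2 : ℝ) ^ 1 :=
          pow_le_pow_of_le_one (by norm_num) (by norm_num) (by omega)
        simpa using this
      exact mul_le_mul_of_nonneg_right (by linarith) hM0.le

/-- the sets `A k` have positive lower density -/
theorem dens {k N : ℕ} (hN : M (k + 1) ≤ N) : (N : ℝ) ≤ 16 * M (k + 1) * cnt k N := by
  obtain ⟨J, hJ1, hJ2⟩ : ∃ J, M J ≤ N ∧ N < M (J + 1) := by
    have hex : ∃ J, N < M (J + 1) := ⟨N, by have := M_ge (N + 1); omega⟩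
    classical
    refine ⟨Nat.find hex, ?_, Nat.find_spec hex⟩
    by_contra hc
    push Not at hc
    rcases Nat.eq_zero_or_pos (Nat.find hex) with h | h
    · rw [h] at hc
      have := M_le (Nat.zero_le (k + 1))
      omega
    · have := Nat.find_min hex (m := Nat.find hex - 1) (by omega)
      apply this
      rwa [Nat.sub_add_cancel h]
  have hJk : k + 1 ≤ J := by
    have : k + 1 < J + 1 := M_inj (lt_of_le_of_lt hN hJ2)
    omega
  set q := N / M J with hq
  have hq1 : 1 ≤ q := (Nat.one_le_div_iff (M_pos J)).2 hJ1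
  have hq2 : q < b J := by
    rw [hq, Nat.div_lt_iff_lt_mul (M_pos J), ← M_succ]
    exact hJ2
  have hb := b_ge32 J
  have hNq : N < (q + 1) * M J := by
    have := Nat.lt_mul_div_succ N (M_pos J)
    rw [mul_comm]
    exact this
  obtain ⟨t, ht1, ht2, ht3, ht4⟩ : ∃ t, 1 ≤ t ∧ t ≤ q ∧ t + 3 ≤ b J ∧ q ≤ 4 * ((range t).erase 1).card := by
    refine ⟨min q (b J - 3), by omega, by omega, by omega, ?_⟩
    have := card_er (t := min q (b J - 3)) (by omega)
    omega
  have h1 := step (k := k) (J := J) (N := N) (t := t) hJk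
    (le_trans (Nat.mul_le_mul_right _ ht2) (Nat.div_mul_le_self N (M J))) ht3
  have h2 := lower hJk
  have h3 : (cnt k (M J) : ℝ) * ((range t).erase 1).card ≤ cnt k N := by exact_mod_cast h1
  have h4 : (q : ℝ) ≤ 4 * ((range t).erase 1).card := by exact_mod_cast ht4
  have h5 : (N : ℝ) < (q + 1) * M J := by exact_mod_cast hNq
  have hq1' : (1 : ℝ) ≤ q := by exact_mod_cast hq1
  have hM0 : (0 : ℝ) < M J := by exact_mod_cast M_pos J
  have hMk : (0 : ℝ) < M (k + 1) := by exact_mod_cast M_pos _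
  have hx : (0 : ℝ) < (1 / 2 : ℝ) ^ (J + 1) := by positivity
  set c := (((range t).erase 1).card : ℝ) with hc
  have hc0 : 0 ≤ c := by positivity
  calc (N : ℝ) ≤ (q + 1) * M J := h5.le
    _ ≤ (2 * q) * M J := mul_le_mul_of_nonneg_right (by linarith) hM0.le
    _ ≤ (8 * c) * M J := mul_le_mul_of_nonneg_right (by linarith) hM0.le
    _ = 16 * c * (1 / 2 * M J) := by ring
    _ ≤ 16 * c * (cnt k (M J) * M (k + 1)) := by
        apply mul_le_mul_of_nonneg_left _ (by positivity)
        nlinarith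
    _ = 16 * M (k + 1) * (cnt k (M J) * c) := by ring
    _ ≤ 16 * M (k + 1) * cnt k N := mul_le_mul_of_nonneg_left h3 (by positivity)

end Pool.Agent.X331.SF
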