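import Mathlib

namespace Pool.Agent.X331.SF

open Filter Topology

/-- `ℓ¹(ι; E)` -/
abbrev L1 (ι : Type) (E : Type) [NormedAddCommGroup E] := lp (fun _ : ι => E) 1

section gen
variable {ι E : Type} [NormedAddCommGroup E]

lemma memlp_of_summable {f : ι → E} (h : Summable fun i => ‖f i‖) : Memℓp f 1 := by
  apply memℓp_gen
  simpa using h

lemma summable_norm (x : L1 ι E) : Summable fun i => ‖x i‖ := by
  have := (lp.memℓp x).summable (by simp)
  simpa using this

lemma norm_eq (x : L1 ι E) : ‖x‖ = ∑' i, ‖x i‖ := by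
  have h := lp.norm_eq_tsum_rpow (p := 1) (by simp) x
  simpa using h

lemma norm_apply_le (x : L1 ι E) (i : ι) : ‖x i‖ ≤ ‖x‖ :=
  lp.norm_apply_le_norm (by simp) x i

lemma sum_le_norm (x : L1 ι E) (s : Finset ι) : ∑ i ∈ s, ‖x i‖ ≤ ‖x‖ := by
  rw [norm_eq]
  exact (summable_norm x).sum_le_tsum s (fun i _ => norm_nonneg _)

lemma norm_le_of_sums (x : L1 ι E) {C : ℝ} (h : ∀ s : Finset ι, ∑ i ∈ s, ‖x i‖ ≤ C) : ‖x‖ ≤ C := by
  rw [norm_eq]
  exact (summable_norm x).tsum_le_of_sum_le h

variable [NormedSpace ℝ E] [DecidableEq ι]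

/-- coordinate as a continuous linear map -/
noncomputable def ev (i : ι) : L1 ι E →L[ℝ] E :=
  LinearMap.mkContinuous
    { toFun := fun x => x i
      map_add' := fun _ _ => rfl
      map_smul' := fun _ _ => rfl } 1 (fun x => by rw [one_mul]; exact norm_apply_le x i)

@[simp] lemma ev_apply (i : ι) (x : L1 ι E) : ev i x = x i := rfl

/-- the vector with `v` in place `i` -/
noncomputable def sg (i : ι) : E →L[ℝ] L1 ι E :=
  LinearMap.mkContinuous
    { toFun := fun v => lp.single 1 i v
      map_add' := fun x y => by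
        ext j
        simp only [lp.coeFn_add, Pi.add_apply, lp.single_apply, Pi.single_apply]
        split_ifs <;> simp
      map_smul' := fun c y => by
        ext j
        simp only [lp.coeFn_smul, Pi.smul_apply, lp.single_apply, Pi.single_apply, RingHom.id_apply]
        split_ifs <;> simp } 1 (fun x => by
        rw [one_mul]
        show ‖lp.single (E := fun _ : ι => E) 1 i x‖ ≤ ‖x‖
        rw [lp.norm_single (by norm_num)])

lemma sg_apply (i j : ι) (v : E) : (sg i v : L1 ι E) j = if j = i then v else 0 := by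
  show (lp.single (E := fun _ : ι => E) 1 i v) j = _
  rw [lp.single_apply, Pi.single_apply]

lemma norm_sg (i : ι) (v : E) : ‖(sg i v : L1 ι E)‖ = ‖v‖ := by
  show ‖lp.single (E := fun _ : ι => E) 1 i v‖ = ‖v‖
  rw [lp.norm_single (by norm_num)]

lemma hasSum_sg (x : L1 ι E) : HasSum (fun i => (sg i (x i) : L1 ι E)) x := by
  have h := lp.hasSum_single (p := 1) (by simp) x
  exact h

end gen

/-- the space -/
abbrev X := L1 ℕ ℝ

noncomputable def e (h : ℕ) : X := sg h (1 : ℝ)

lemma e_apply (h j : ℕ) : (e h) j = if j = h then 1 else 0 := sg_apply h j 1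

lemma norm_e (h : ℕ) : ‖e h‖ = 1 := by
  rw [e, norm_sg, norm_one]

end Pool.Agent.X331.SF
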