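import Mathlib
import Pool.Agent.X331.SF.Arith
import Pool.Agent.X331.SF.L1

namespace Pool.Agent.X331.SF

open Filter Topology

/-- group of a window -/
def gg (h : ℕ) : ℕ := (Nat.unpair (h - 1)).1
/-- index of a window -/
def ii (h : ℕ) : ℕ := (Nat.unpair (h - 1)).2
/-- active windows -/
def Act (h : ℕ) : Prop := 1 ≤ h ∧ ii h < b (gg h)
/-- position of the window -/
def pp (h : ℕ) : ℕ := ii h * M (gg h) + M h

def hh (g i : ℕ) : ℕ := Nat.pair g i + 1

@[simp] lemma gg_hh (g i : ℕ) : gg (hh g i) = g := by simp [gg, hh]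
@[simp] lemma ii_hh (g i : ℕ) : ii (hh g i) = i := by simp [ii, hh]

lemma hh_self {h : ℕ} (hh1 : 1 ≤ h) : hh (gg h) (ii h) = h := by
  unfold hh gg ii
  rw [Nat.pair_unpair]
  omega

lemma hh_inj {g i g' i' : ℕ} (h : hh g i = hh g' i') : g = g' ∧ i = i' := by
  unfold hh at h
  exact Nat.pair_eq_pair.1 (by omega)

lemma gg_lt {h : ℕ} (hh1 : 1 ≤ h) : gg h + 1 ≤ h := by
  have : gg h ≤ h - 1 := Nat.unpair_left_le _
  omega

lemma act_le {h : ℕ} (hA : Act h) : 5 * h ≤ M (gg h) := by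
  have h1 := Nat.pair_lt_max_add_one_sq (gg h) (ii h)
  have h2 : h = Nat.pair (gg h) (ii h) + 1 := (hh_self hA.1).symm
  have h3 : max (gg h) (ii h) + 1 ≤ b (gg h) := by
    have := b_gt (gg h)
    have := hA.2
    omega
  have h4 : (max (gg h) (ii h) + 1) ^ 2 ≤ b (gg h) ^ 2 := Nat.pow_le_pow_left h3 2
  have h5 := b_sq (gg h)
  omega

lemma pp_bounds {h : ℕ} (hA : Act h) : M h ≤ pp h ∧ pp h < 2 * M h := by
  unfold pp
  have h1 : (ii h + 1) * M (gg h) ≤ b (gg h) * M (gg h) := Nat.mul_le_mul_right _ hA.2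
  rw [← M_succ] at h1
  have h2 := M_le (gg_lt hA.1)
  have h3 := M_pos (gg h)
  have h4 : (ii h + 1) * M (gg h) = ii h * M (gg h) + M (gg h) := by ring
  constructor
  · omega
  · omega

/-- exponent -/
def Ex (h : ℕ) (j : ℤ) : ℤ := 2 * pp h + gg h - 4 * |j - pp h|

lemma win {h : ℕ} {j : ℤ} (hA : Act h) (hE : 0 < Ex h j) :
    (M h : ℤ) < 4 * j ∧ 4 * j + 4 < M (h + 1) := by
  obtain ⟨h1, h2⟩ := pp_bounds hA
  have h3 := gg_lt hA.1
  have h4 := M_ge h
  have h5 := M_succ_ge h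
  unfold Ex at hE
  have h6 : (M h : ℤ) ≤ pp h := by exact_mod_cast h1
  have h7 : (pp h : ℤ) < 2 * M h := by exact_mod_cast h2
  have h8 : (gg h : ℤ) + 1 ≤ h := by exact_mod_cast h3
  have h9 : 8192 * ((h : ℤ) + 1) ≤ M h := by exact_mod_cast h4
  have h10 : 32 * (M h : ℤ) ≤ M (h + 1) := by exact_mod_cast h5
  have h11 := le_abs_self (j - pp h)
  have h12 := neg_abs_le (j - pp h)
  constructor
  · omega
  · omega

lemma uniq {h h' : ℕ} {j j' : ℤ} (hA : Act h) (hE : 0 < Ex h j) (hA' : Act h') (hE' : 0 < Ex h' j')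
    (hj : |j - j'| ≤ 1) : h = h' := by
  obtain ⟨h1, h2⟩ := win hA hE
  obtain ⟨h3, h4⟩ := win hA' hE'
  obtain ⟨h5, h6⟩ := abs_le.1 hj
  by_contra hne
  rcases Nat.lt_or_gt_of_ne hne with h7 | h7
  · have : (M (h + 1) : ℤ) ≤ M h' := by exact_mod_cast M_le h7
    omega
  · have : (M (h' + 1) : ℤ) ≤ M h := by exact_mod_cast M_le h7
    omega

open Classical in
/-- the window containing `j` -/
noncomputable def sel (j : ℤ) : ℕ := if h : ∃ h, Act h ∧ 0 < Ex h j then h.choose else 0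

lemma sel_spec {j : ℤ} (h0 : sel j ≠ 0) : Act (sel j) ∧ 0 < Ex (sel j) j := by
  unfold sel at h0 ⊢
  split_ifs with h
  · exact h.choose_spec
  · rw [dif_neg h] at h0
    exact absurd rfl h0

lemma sel_eq {j : ℤ} {h : ℕ} (hA : Act h) (hE : 0 < Ex h j) : sel j = h := by
  have hex : ∃ h, Act h ∧ 0 < Ex h j := ⟨h, hA, hE⟩
  unfold sel
  rw [dif_pos hex]
  exact uniq hex.choose_spec.1 hex.choose_spec.2 hA hE (by simp)

lemma sel_zero {j : ℤ} (h0 : sel j = 0) {h : ℕ} (hA : Act h) : Ex h j ≤ 0 := by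
  by_contra hc
  push Not at hc
  rw [sel_eq hA hc] at h0
  have := hA.1
  omega

noncomputable def dl (g : ℕ) : ℝ := 1 / ((g : ℝ) + 1)

lemma dl_pos (g : ℕ) : 0 < dl g := by unfold dl; positivity
lemma dl_le (g : ℕ) : dl g ≤ 1 := by
  unfold dl
  rw [div_le_one (by positivity)]
  have : (0 : ℝ) ≤ g := by positivity
  linarith

/-- the functionals -/
noncomputable def f (h : ℕ) : X →L[ℝ] ℝ :=
  if 1 ≤ h ∧ ii h + 1 < b (gg h) then (2 : ℝ) ^ (gg h) • ev h
  else if 1 ≤ h ∧ ii h + 1 = b (gg h) then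
    dl (gg h) • ev 0 - (2 : ℝ) ^ (gg h) • ∑ i ∈ Finset.range (b (gg h) - 1), ev (hh (gg h) i)
  else 0

/-- the vectors -/
noncomputable def w (h : ℕ) : X :=
  if ii h + 1 < b (gg h) then ((2 : ℝ) ^ (gg h))⁻¹ • e h
  else -((2 : ℝ) ^ (gg h))⁻¹ • e (hh (gg h) 0)

lemma f_first {h : ℕ} (h1 : 1 ≤ h) (h2 : ii h + 1 < b (gg h)) (v : X) :
    f h v = 2 ^ (gg h) * v h := by
  unfold f
  rw [if_pos ⟨h1, h2⟩]
  rfl

lemma f_last {h : ℕ} (h1 : 1 ≤ h) (h2 : ii h + 1 = b (gg h)) (v : X) :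
    f h v = dl (gg h) * v 0 - 2 ^ (gg h) * ∑ i ∈ Finset.range (b (gg h) - 1), v (hh (gg h) i) := by
  unfold f
  rw [if_neg (by rintro ⟨_, h3⟩; omega), if_pos ⟨h1, h2⟩]
  rw [ContinuousLinearMap.sub_apply, ContinuousLinearMap.smul_apply, ContinuousLinearMap.smul_apply,
    ContinuousLinearMap.sum_apply]
  rfl

lemma f_inact {h : ℕ} (h1 : ¬ Act h) : f h = 0 := by
  unfold f
  rw [if_neg, if_neg]
  · rintro ⟨h2, h3⟩
    exact h1 ⟨h2, by omega⟩
  · rintro ⟨h2, h3⟩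
    exact h1 ⟨h2, by omega⟩

lemma norm_w (h : ℕ) : ‖w h‖ = ((2 : ℝ) ^ (gg h))⁻¹ := by
  unfold w
  have h2 : (0 : ℝ) < 2 ^ (gg h) := by positivity
  split_ifs
  · rw [norm_smul, norm_e, mul_one, Real.norm_of_nonneg (by positivity)]
  · rw [norm_smul, norm_e, mul_one, norm_neg, Real.norm_of_nonneg (by positivity)]

lemma f_le (h : ℕ) (v : X) : |f h v| ≤ 2 * 2 ^ (gg h) * ‖v‖ := by
  have h2 : (1 : ℝ) ≤ 2 ^ (gg h) := one_le_pow₀ (by norm_num)
  have hv := norm_nonneg v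
  by_cases hA : Act h
  · rcases Nat.lt_or_eq_of_le (Nat.succ_le_of_lt hA.2) with h3 | h3
    · rw [f_first hA.1 h3, abs_mul, abs_of_pos (by positivity)]
      have h4 := norm_apply_le v h
      rw [Real.norm_eq_abs] at h4
      have := mul_le_mul_of_nonneg_left h4 (show (0 : ℝ) ≤ 2 ^ (gg h) by positivity)
      nlinarith
    · rw [f_last hA.1 h3]
      have h4 := norm_apply_le v 0
      rw [Real.norm_eq_abs] at h4
      have h5 : |∑ i ∈ Finset.range (b (gg h) - 1), v (hh (gg h) i)| ≤ ‖v‖ := by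
        refine (Finset.abs_sum_le_sum_abs _ _).trans ?_
        have h6 := sum_le_norm v ((Finset.range (b (gg h) - 1)).image (hh (gg h)))
        rw [Finset.sum_image] at h6
        · simpa [Real.norm_eq_abs] using h6
        · intro i _ j _ hij
          exact (hh_inj hij).2
      have h7 := dl_pos (gg h)
      have h8 := dl_le (gg h)
      calc |dl (gg h) * v 0 - 2 ^ (gg h) * ∑ i ∈ Finset.range (b (gg h) - 1), v (hh (gg h) i)|
          ≤ |dl (gg h) * v 0| + |2 ^ (gg h) * ∑ i ∈ Finset.range (b (gg h) - 1), v (hh (gg h) i)| :=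
            abs_sub _ _
        _ = dl (gg h) * |v 0| + 2 ^ (gg h) * |∑ i ∈ Finset.range (b (gg h) - 1), v (hh (gg h) i)| := by
            rw [abs_mul, abs_mul, abs_of_pos h7, abs_of_pos (show (0 : ℝ) < 2 ^ (gg h) by positivity)]
        _ ≤ 1 * ‖v‖ + 2 ^ (gg h) * ‖v‖ := by
            gcongr
        _ ≤ 2 * 2 ^ (gg h) * ‖v‖ := by nlinarith
  · rw [f_inact hA, ContinuousLinearMap.zero_apply, abs_zero]
    positivity

lemma f_w (h : ℕ) (v : X) : f h (w h) * f h v = f h v := by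
  have hne : (2 : ℝ) ^ (gg h) ≠ 0 := by positivity
  by_cases hA : Act h
  · suffices hs : f h (w h) = 1 by rw [hs, one_mul]
    rcases Nat.lt_or_eq_of_le (Nat.succ_le_of_lt hA.2) with h3 | h3
    · rw [f_first hA.1 h3]
      unfold w
      rw [if_pos h3]
      show 2 ^ gg h * (((2 : ℝ) ^ gg h)⁻¹ * (e h) h) = 1
      rw [e_apply, if_pos rfl, mul_one, mul_inv_cancel₀ hne]
    · rw [f_last hA.1 h3]
      have hb := b_ge32 (gg h)
      unfold w
      rw [if_neg (by omega)]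
      have h5 : ∀ j, (-((2 : ℝ) ^ gg h)⁻¹ • e (hh (gg h) 0) : X) j =
          -((2 : ℝ) ^ gg h)⁻¹ * (if j = hh (gg h) 0 then 1 else 0) := by
        intro j
        rw [← e_apply]
        rfl
      rw [h5, if_neg (by unfold hh; omega)]
      rw [Finset.sum_eq_single 0]
      · rw [h5, if_pos rfl]
        field_simp
        ring
      · intro i _ hi
        rw [h5, if_neg, mul_zero]
        intro hc
        exact hi (hh_inj hc).2
      · intro hc
        exfalso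
        apply hc
        rw [Finset.mem_range]
        omega
  · rw [f_inact hA]
    simp

/-- `I + (c-1) f ⊗ w` -/
noncomputable def Rk (h : ℕ) (c : ℝ) : X →L[ℝ] X :=
  ContinuousLinearMap.id ℝ X + (c - 1) • (f h).smulRight (w h)

lemma Rk_apply (h : ℕ) (c : ℝ) (v : X) : Rk h c v = v + ((c - 1) * f h v) • w h := by
  unfold Rk
  rw [ContinuousLinearMap.add_apply, ContinuousLinearMap.smul_apply,
    ContinuousLinearMap.smulRight_apply, smul_smul]
  rfl

lemma Rk_comp (h : ℕ) (c c' : ℝ) (v : X) : Rk h c (Rk h c' v) = Rk h (c * c') v := by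
  rw [Rk_apply, Rk_apply, Rk_apply, map_add, map_smul, add_assoc, ← add_smul, smul_eq_mul]
  congr 2
  have := f_w h v
  linear_combination (c - 1) * (c' - 1) * this

lemma Rk_one (h : ℕ) (v : X) : Rk h 1 v = v := by
  rw [Rk_apply, sub_self, zero_mul, zero_smul, add_zero]

lemma Rk_zero (c : ℝ) (v : X) : Rk 0 c v = v := by
  rw [Rk_apply, f_inact (fun h => by have := h.1; omega)]
  simp

lemma Rk_norm (h : ℕ) (c : ℝ) (v : X) : ‖Rk h c v‖ ≤ (1 + 2 * |c - 1|) * ‖v‖ := by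
  rw [Rk_apply]
  have hne : (0 : ℝ) < 2 ^ (gg h) := by positivity
  calc ‖v + ((c - 1) * f h v) • w h‖ ≤ ‖v‖ + ‖((c - 1) * f h v) • w h‖ := norm_add_le _ _
    _ = ‖v‖ + |c - 1| * |f h v| * ((2 : ℝ) ^ (gg h))⁻¹ := by
        rw [norm_smul, norm_w, Real.norm_eq_abs, abs_mul]
    _ ≤ ‖v‖ + |c - 1| * (2 * 2 ^ (gg h) * ‖v‖) * ((2 : ℝ) ^ (gg h))⁻¹ := by
        gcongr
        exact f_le h v
    _ = (1 + 2 * |c - 1|) * ‖v‖ := by
        field_simp

/-- size of the weight -/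
noncomputable def cw (h : ℕ) (j : ℤ) : ℝ := 2 ^ (Ex h j).toNat

lemma cw_pos (h : ℕ) (j : ℤ) : 0 < cw h j := by unfold cw; positivity

noncomputable def T (j : ℤ) : X →L[ℝ] X := ((4 : ℝ) ^ j.natAbs)⁻¹ • Rk (sel j) (cw (sel j) j)
noncomputable def Ti (j : ℤ) : X →L[ℝ] X := ((4 : ℝ) ^ j.natAbs) • Rk (sel j) (cw (sel j) j)⁻¹

lemma T_apply (j : ℤ) (v : X) : T j v = ((4 : ℝ) ^ j.natAbs)⁻¹ • Rk (sel j) (cw (sel j) j) v := rfl
lemma Ti_apply (j : ℤ) (v : X) : Ti j v = ((4 : ℝ) ^ j.natAbs) • Rk (sel j) (cw (sel j) j)⁻¹ v := rfl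

lemma T_Ti (j : ℤ) (v : X) : T j (Ti j v) = v := by
  have h4 : (4 : ℝ) ^ j.natAbs ≠ 0 := by positivity
  rw [T_apply, Ti_apply, map_smul, smul_smul, inv_mul_cancel₀ h4, one_smul, Rk_comp,
    mul_inv_cancel₀ (cw_pos _ _).ne', Rk_one]

lemma Ti_T (j : ℤ) (v : X) : Ti j (T j v) = v := by
  have h4 : (4 : ℝ) ^ j.natAbs ≠ 0 := by positivity
  rw [T_apply, Ti_apply, map_smul, smul_smul, mul_inv_cancel₀ h4, one_smul, Rk_comp,
    inv_mul_cancel₀ (cw_pos _ _).ne', Rk_one]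

/-- common window for neighbouring places -/
lemma common {j j' : ℤ} (hj : |j - j'| ≤ 1) : ∃ h : ℕ,
    (∀ v, Rk (sel j) (cw (sel j) j) v = Rk h (cw h j) v) ∧
    (∀ v, Rk (sel j') (cw (sel j') j')⁻¹ v = Rk h (cw h j')⁻¹ v) := by
  by_cases h0 : sel j = 0
  · by_cases h0' : sel j' = 0
    · exact ⟨0, fun v => by rw [h0], fun v => by rw [h0']⟩
    · refine ⟨sel j', fun v => ?_, fun v => rfl⟩
      rw [h0, Rk_zero]
      have := sel_zero h0 (sel_spec h0').1
      unfold cw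
      rw [Int.toNat_of_nonpos this, pow_zero, Rk_one]
  · refine ⟨sel j, fun v => rfl, fun v => ?_⟩
    by_cases h0' : sel j' = 0
    · rw [h0', Rk_zero]
      have := sel_zero h0' (sel_spec h0).1
      unfold cw
      rw [Int.toNat_of_nonpos this, pow_zero, inv_one, Rk_one]
    · have := uniq (sel_spec h0).1 (sel_spec h0).2 (sel_spec h0').1 (sel_spec h0').2 hj
      rw [this]

lemma ratio {h : ℕ} {j j' : ℤ} (hj : |j - j'| ≤ 1) : |cw h j * (cw h j')⁻¹ - 1| ≤ 15 := by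
  have h1 : Ex h j ≤ Ex h j' + 4 := by
    unfold Ex
    have := abs_sub_abs_le_abs_sub (j' - (pp h : ℤ)) (j - pp h)
    have e1 : j' - (pp h : ℤ) - (j - pp h) = -(j - j') := by ring
    rw [e1, abs_neg] at this
    omega
  have h2 : (Ex h j).toNat ≤ (Ex h j').toNat + 4 := by omega
  have hp := cw_pos h j
  have hp' := cw_pos h j'
  have h3 : cw h j ≤ 16 * cw h j' := by
    unfold cw
    calc (2 : ℝ) ^ (Ex h j).toNat ≤ 2 ^ ((Ex h j').toNat + 4) :=
          pow_le_pow_right₀ (by norm_num) h2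
      _ = 16 * 2 ^ (Ex h j').toNat := by rw [pow_add]; ring
  have h4 : 0 < cw h j * (cw h j')⁻¹ := by positivity
  have h5 : cw h j * (cw h j')⁻¹ ≤ 16 := by
    rw [← div_eq_mul_inv, div_le_iff₀ hp']
    exact h3
  rw [abs_le]
  constructor
  · linarith
  · linarith

lemma TTi_norm {j j' : ℤ} (hj : |j - j'| ≤ 1) (v : X) : ‖T j (Ti j' v)‖ ≤ 124 * ‖v‖ := by
  obtain ⟨h, h1, h2⟩ := common hj
  rw [T_apply, Ti_apply, map_smul, h1, h2, Rk_comp, norm_smul, norm_smul, Real.norm_of_nonneg (by positivity),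
    Real.norm_of_nonneg (by positivity)]
  have h3 := Rk_norm h (cw h j * (cw h j')⁻¹) v
  have h4 := ratio (h := h) hj
  have h5 : ((4 : ℝ) ^ j.natAbs)⁻¹ * 4 ^ j'.natAbs ≤ 4 := by
    have : j'.natAbs ≤ j.natAbs + 1 := by
      obtain ⟨h5, h6⟩ := abs_le.1 hj
      omega
    have h6 : (4 : ℝ) ^ j'.natAbs ≤ 4 ^ (j.natAbs + 1) := pow_le_pow_right₀ (by norm_num) this
    rw [inv_mul_le_iff₀ (by positivity)]
    rw [pow_succ] at h6
    exact h6
  calc ((4 : ℝ) ^ j.natAbs)⁻¹ * (4 ^ j'.natAbs * ‖Rk h (cw h j * (cw h j')⁻¹) v‖)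
      = (((4 : ℝ) ^ j.natAbs)⁻¹ * 4 ^ j'.natAbs) * ‖Rk h (cw h j * (cw h j')⁻¹) v‖ := by ring
    _ ≤ 4 * ((1 + 2 * |cw h j * (cw h j')⁻¹ - 1|) * ‖v‖) := by gcongr
    _ ≤ 4 * ((1 + 2 * 15) * ‖v‖) := by gcongr
    _ = 124 * ‖v‖ := by ring

noncomputable def S (n : ℤ) : X ≃L[ℝ] X :=
  ContinuousLinearEquiv.equivOfInverse ((T (n - 1)).comp (Ti n)) ((T n).comp (Ti (n - 1)))
    (fun v => by
      show T n (Ti (n - 1) (T (n - 1) (Ti n v))) = v
      rw [Ti_T, T_Ti])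
    (fun v => by
      show T (n - 1) (Ti n (T n (Ti (n - 1) v))) = v
      rw [Ti_T, T_Ti])

lemma S_apply (n : ℤ) (v : X) : S n v = T (n - 1) (Ti n v) := rfl
lemma S_symm_apply (n : ℤ) (v : X) : (S n).symm v = T n (Ti (n - 1) v) := rfl

lemma S_norm (n : ℤ) : ‖(S n : X →L[ℝ] X)‖ ≤ 124 :=
  ContinuousLinearMap.opNorm_le_bound _ (by norm_num) fun v => TTi_norm (by simp) v

lemma S_symm_norm (n : ℤ) : ‖((S n).symm : X →L[ℝ] X)‖ ≤ 124 :=
  ContinuousLinearMap.opNorm_le_bound _ (by norm_num) fun v => TTi_norm (by simp) v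

noncomputable abbrev Z := L1 ℤ X

/-- the shift operator -/
noncomputable def sh : Z →L[ℝ] Z :=
  LinearMap.mkContinuous
    { toFun := fun x => ⟨fun n => S (n + 1) (x (n + 1)), by
        apply memlp_of_summable
        have h1 : Summable fun n : ℤ => 124 * ‖x (n + 1)‖ :=
          ((Equiv.addRight (1 : ℤ)).summable_iff.2 (summable_norm x)).mul_left 124
        refine Summable.of_nonneg_of_le (fun n => norm_nonneg _) (fun n => ?_) h1
        exact TTi_norm (by simp) _⟩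
      map_add' := fun x y => by
        ext n : 2
        exact map_add (S (n + 1)) _ _
      map_smul' := fun c x => by
        ext n : 2
        exact map_smul (S (n + 1)) _ _ } 124 (fun x => by
        apply norm_le_of_sums
        intro s
        have h2 := sum_le_norm x (s.map (Equiv.addRight (1 : ℤ)).toEmbedding)
        rw [Finset.sum_map] at h2
        calc ∑ i ∈ s, ‖S (i + 1) (x (i + 1))‖ ≤ ∑ i ∈ s, 124 * ‖x (i + 1)‖ :=
              Finset.sum_le_sum fun n _ => TTi_norm (by simp) _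
          _ = 124 * ∑ i ∈ s, ‖x (i + 1)‖ := by rw [Finset.mul_sum]
          _ ≤ 124 * ‖x‖ := mul_le_mul_of_nonneg_left h2 (by norm_num))

lemma sh_apply (x : Z) (n : ℤ) : (sh x) n = S (n + 1) (x (n + 1)) := rfl

lemma sh_pow (m : ℕ) (x : Z) (n : ℤ) : ((sh ^ m) x) n = T n (Ti (n + m) (x (n + m))) := by
  induction m generalizing x n with
  | zero => simp [T_Ti]
  | succ m ih =>
    rw [pow_succ', ContinuousLinearMap.mul_apply, sh_apply, ih, S_apply]
    rw [Ti_T, add_sub_cancel_right]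
    push_cast
    have : n + 1 + (m : ℤ) = n + (m + 1) := by ring
    rw [this]

end Pool.Agent.X331.SF
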