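import Mathlib
import Pool.Agent.X331.SF.Space

namespace Pool.Agent.X331.SF

open Filter Topology Finset

lemma T_neg {j : ℤ} (hj : j ≤ 0) : sel j = 0 := by
  by_contra h0
  obtain ⟨hA, hE⟩ := sel_spec h0
  have := (win hA hE).1
  have h2 : (0 : ℤ) < M (sel j) := by exact_mod_cast M_pos _
  omega

lemma T_zero (v : X) : T 0 v = v := by
  rw [T_apply, T_neg le_rfl, Rk_zero]
  simp

lemma pp_inj {h h' : ℕ} (hA : Act h) (hA' : Act h') (he : pp h = pp h') : h = h' := by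
  obtain ⟨h1, h2⟩ := pp_bounds hA
  obtain ⟨h3, h4⟩ := pp_bounds hA'
  have h5 := M_succ_ge h
  have h6 := M_succ_ge h'
  have h7 : h < h' + 1 := M_inj (by omega)
  have h8 : h' < h + 1 := M_inj (by omega)
  omega

lemma act_hh {g i : ℕ} (hi : i < b g) : Act (hh g i) := by
  refine ⟨by unfold hh; omega, ?_⟩
  rw [ii_hh, gg_hh]
  exact hi

lemma low {h : ℕ} (hA : Act h) (v : X) :
    |f h v| ≤ ‖T (pp h) v‖ + 3 * ‖v‖ * (1 / 4 : ℝ) ^ pp h := by
  have hE : Ex h (pp h) = ((2 * pp h + gg h : ℕ) : ℤ) := by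
    unfold Ex
    rw [sub_self, abs_zero]
    push_cast
    ring
  have hpp : 0 < pp h := lt_of_lt_of_le (M_pos h) (pp_bounds hA).1
  have hs : sel (pp h) = h := sel_eq hA (by rw [hE]; exact_mod_cast (by omega))
  have hc : cw h (pp h) = 4 ^ pp h * 2 ^ gg h := by
    unfold cw
    rw [hE, Int.toNat_natCast, pow_add, pow_mul]
    norm_num
  have h2g : (0 : ℝ) < 2 ^ gg h := by positivity
  have h4p : (0 : ℝ) < 4 ^ pp h := by positivity
  have hT : T (pp h) v = ((4 : ℝ) ^ pp h)⁻¹ • (v - f h v • w h) + ((2 : ℝ) ^ gg h * f h v) • w h := by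
    rw [T_apply, hs, Rk_apply, hc, Int.natAbs_natCast]
    rw [smul_add, smul_smul, smul_sub, smul_smul]
    have : ((4 : ℝ) ^ pp h)⁻¹ * ((4 ^ pp h * 2 ^ gg h - 1) * f h v) =
        2 ^ gg h * f h v - ((4 : ℝ) ^ pp h)⁻¹ * f h v := by
      field_simp
    rw [this, sub_smul]
    abel
  have h1 : ‖((2 : ℝ) ^ gg h * f h v) • w h‖ = |f h v| := by
    rw [norm_smul, norm_w, norm_mul, Real.norm_of_nonneg h2g.le, Real.norm_eq_abs]
    field_simp
  have h3 : ‖v - f h v • w h‖ ≤ 3 * ‖v‖ := by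
    calc ‖v - f h v • w h‖ ≤ ‖v‖ + ‖f h v • w h‖ := norm_sub_le _ _
      _ = ‖v‖ + |f h v| * ((2 : ℝ) ^ gg h)⁻¹ := by rw [norm_smul, norm_w, Real.norm_eq_abs]
      _ ≤ ‖v‖ + (2 * 2 ^ (gg h) * ‖v‖) * ((2 : ℝ) ^ gg h)⁻¹ := by
          gcongr
          exact f_le h v
      _ = 3 * ‖v‖ := by field_simp; ring
  have h5 : ((2 : ℝ) ^ gg h * f h v) • w h = T (pp h) v - ((4 : ℝ) ^ pp h)⁻¹ • (v - f h v • w h) := by
    rw [hT]; abel
  rw [← h1, h5]
  calc ‖T (pp h) v - ((4 : ℝ) ^ pp h)⁻¹ • (v - f h v • w h)‖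
      ≤ ‖T (pp h) v‖ + ‖((4 : ℝ) ^ pp h)⁻¹ • (v - f h v • w h)‖ := norm_sub_le _ _
    _ = ‖T (pp h) v‖ + ((4 : ℝ) ^ pp h)⁻¹ * ‖v - f h v • w h‖ := by
        rw [norm_smul, Real.norm_of_nonneg (by positivity)]
    _ ≤ ‖T (pp h) v‖ + ((4 : ℝ) ^ pp h)⁻¹ * (3 * ‖v‖) := by gcongr
    _ = _ := by
        rw [one_div, inv_pow]
        ring

lemma sum_f (g : ℕ) (v : X) : ∑ i ∈ range (b g), f (hh g i) v = dl g * v 0 := by
  have hb := b_ge32 g
  have e1 : b g = (b g - 1) + 1 := by omega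
  rw [e1, Finset.sum_range_succ]
  rw [f_last (h := hh g (b g - 1)) (by unfold hh; omega) (by rw [ii_hh, gg_hh]; omega), gg_hh]
  have h1 : ∀ i ∈ range (b g - 1), f (hh g i) v = 2 ^ g * v (hh g i) := by
    intro i hi
    have := mem_range.1 hi
    rw [f_first (by unfold hh; omega) (by rw [ii_hh, gg_hh]; omega), gg_hh]
  rw [Finset.sum_congr rfl h1, ← Finset.mul_sum]
  ring

lemma per_pow {k : ℕ} {x : Z} (hx : (sh ^ k) x = x) (t : ℕ) : (sh ^ (k * t)) x = x := by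
  induction t with
  | zero => simp
  | succ t ih =>
    rw [Nat.mul_succ, pow_add]
    show (sh ^ (k * t)) ((sh ^ k) x) = x
    rw [hx, ih]

lemma per_eval {k : ℕ} {x : Z} (hx : (sh ^ k) x = x) {j : ℕ} (hj : k ∣ j) : x j = T j (x 0) := by
  obtain ⟨t, rfl⟩ := hj
  have h1 := sh_pow (k * t) x 0
  rw [per_pow hx t, T_zero, zero_add] at h1
  rw [h1, T_Ti]

theorem per_zero {k : ℕ} (hk : 1 ≤ k) {x : Z} (hx : (sh ^ k) x = x) : (x 0) 0 = 0 := by
  classical
  by_contra hne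
  set v := x 0 with hv
  have hv0 : 0 < |v 0| := abs_pos.2 hne
  -- bound
  have key : ∀ G, (∑ g ∈ Ico k G, dl g) * |v 0| ≤ ‖x‖ + 3 * ‖v‖ * (4 / 3) := by
    intro G
    set s : Finset (Σ _ : ℕ, ℕ) := (Ico k G).sigma (fun g => range (b g)) with hs
    have hsm : ∀ q ∈ s, k ≤ q.1 ∧ q.2 < b q.1 := by
      intro q hq
      rw [hs, Finset.mem_sigma] at hq
      exact ⟨(Finset.mem_Ico.1 hq.1).1, mem_range.1 hq.2⟩
    have hinj : Set.InjOn (fun q : (Σ _ : ℕ, ℕ) => pp (hh q.1 q.2)) (s : Set (Σ _ : ℕ, ℕ)) := by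
      rintro ⟨g, i⟩ hq ⟨g', i'⟩ hq' heq
      have h1 := hsm _ hq
      have h2 := hsm _ hq'
      have h3 := pp_inj (act_hh h1.2) (act_hh h2.2) heq
      obtain ⟨h4, h5⟩ := hh_inj h3
      simp only at h4 h5
      subst h4
      subst h5
      rfl
    calc (∑ g ∈ Ico k G, dl g) * |v 0| = ∑ g ∈ Ico k G, |∑ i ∈ range (b g), f (hh g i) v| := by
          rw [Finset.sum_mul]
          apply Finset.sum_congr rfl
          intro g _
          rw [sum_f, abs_mul, abs_of_pos (dl_pos g)]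
      _ ≤ ∑ g ∈ Ico k G, ∑ i ∈ range (b g), |f (hh g i) v| :=
          Finset.sum_le_sum fun g _ => Finset.abs_sum_le_sum_abs _ _
      _ = ∑ q ∈ s, |f (hh q.1 q.2) v| := by rw [hs, Finset.sum_sigma]
      _ ≤ ∑ q ∈ s, (‖x (pp (hh q.1 q.2))‖ + 3 * ‖v‖ * (1 / 4 : ℝ) ^ pp (hh q.1 q.2)) := by
          apply Finset.sum_le_sum
          intro q hq
          have h1 := hsm q hq
          have hd : k ∣ pp (hh q.1 q.2) := by
            unfold pp
            rw [gg_hh, ii_hh]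
            refine dvd_add (Dvd.dvd.mul_left (dvd_M hk h1.1) _) (dvd_M hk ?_)
            have := gg_lt (h := hh q.1 q.2) (by unfold hh; omega)
            rw [gg_hh] at this
            omega
          rw [per_eval hx hd]
          exact low (act_hh h1.2) v
      _ = ∑ q ∈ s, ‖x (pp (hh q.1 q.2))‖ + 3 * ‖v‖ * ∑ q ∈ s, (1 / 4 : ℝ) ^ pp (hh q.1 q.2) := by
          rw [Finset.sum_add_distrib, Finset.mul_sum]
      _ ≤ ‖x‖ + 3 * ‖v‖ * (4 / 3) := by
          gcongr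
          · have h1 := sum_le_norm x ((s.image (fun q => pp (hh q.1 q.2))).image (fun n : ℕ => (n : ℤ)))
            rw [Finset.sum_image (fun a _ b _ h => by exact_mod_cast h), Finset.sum_image hinj] at h1
            exact h1
          · have h1 : Summable fun n : ℕ => (1 / 4 : ℝ) ^ n :=
              summable_geometric_of_lt_one (by norm_num) (by norm_num)
            have h2 := h1.sum_le_tsum (s.image (fun q => pp (hh q.1 q.2))) (fun i _ => by positivity)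
            rw [Finset.sum_image hinj, tsum_geometric_of_lt_one (by norm_num) (by norm_num)] at h2
            calc _ ≤ _ := h2
              _ = 4 / 3 := by norm_num
  -- divergence
  have hdiv := Real.tendsto_sum_range_one_div_nat_succ_atTop
  set C := ‖x‖ + 3 * ‖v‖ * (4 / 3) with hC
  obtain ⟨G, hG1, hG2⟩ := ((hdiv.eventually_gt_atTop (C / |v 0| + ∑ g ∈ range k, dl g)).and
    (eventually_ge_atTop k)).exists
  have h1 := key G
  have h2 : ∑ g ∈ Ico k G, dl g = ∑ g ∈ range G, dl g - ∑ g ∈ range k, dl g := by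
    rw [Finset.sum_Ico_eq_sub _ hG2]
  have h3 : C / |v 0| < ∑ g ∈ Ico k G, dl g := by
    rw [h2]
    have : ∑ g ∈ range G, dl g = ∑ i ∈ range G, 1 / ((i : ℝ) + 1) := rfl
    rw [this]
    linarith
  rw [div_lt_iff₀ hv0] at h3
  linarith

end Pool.Agent.X331.SF
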