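import Mathlib
import Pool.Agent.X331.SF.Per

namespace Pool.Agent.X331.SF

open Filter Topology Finset

/-- terms of the correction -/
noncomputable def zt (G m t : ℕ) : X :=
  (dl (G + t) / 2 ^ (G + t)) • e (hh (G + t) (a (G + t) m + 2))

lemma zt_norm (G m t : ℕ) : ‖zt G m t‖ ≤ (1 / 2 : ℝ) ^ G * (1 / 2) ^ t := by
  unfold zt
  have h1 := dl_pos (G + t)
  rw [norm_smul, norm_e, mul_one, Real.norm_of_nonneg (by positivity), ← pow_add, one_div_pow]
  exact div_le_div_of_nonneg_right (dl_le _) (by positivity)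

lemma zt_bound_sum (G : ℕ) : HasSum (fun t : ℕ => (1 / 2 : ℝ) ^ G * (1 / 2) ^ t) ((1 / 2 : ℝ) ^ G * 2) :=
  hasSum_geometric_two.mul_left _

lemma zt_summable (G m : ℕ) : Summable (zt G m) :=
  Summable.of_norm_bounded (zt_bound_sum G).summable (zt_norm G m)

/-- the correction vector -/
noncomputable def z (G m : ℕ) : X := ∑' t, zt G m t

lemma z_norm (G m : ℕ) : ‖z G m‖ ≤ (1 / 2 : ℝ) ^ G * 2 :=
  tsum_of_norm_bounded (zt_bound_sum G) (zt_norm G m)

lemma z_norm2 (G m : ℕ) : ‖z G m‖ ≤ 2 := by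
  refine (z_norm G m).trans ?_
  have : (1 / 2 : ℝ) ^ G ≤ 1 := pow_le_one₀ (by norm_num) (by norm_num)
  linarith

lemma z_coord (G m h : ℕ) : (z G m) h = ∑' t, (zt G m t) h := by
  have := (ev h : X →L[ℝ] ℝ).map_tsum (zt_summable G m)
  exact this

lemma zt_coord (G m t h : ℕ) : (zt G m t) h =
    (dl (G + t) / 2 ^ (G + t)) * (if h = hh (G + t) (a (G + t) m + 2) then 1 else 0) := by
  rw [← e_apply]; rfl

lemma z_zero (G m : ℕ) : (z G m) 0 = 0 := by
  rw [z_coord]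
  have : ∀ t, (zt G m t) 0 = 0 := by
    intro t
    rw [zt_coord, if_neg (by unfold hh; omega), mul_zero]
  simp only [this, tsum_zero]

lemma z_hh {G m g i : ℕ} (hg : G ≤ g) :
    (z G m) (hh g i) = if i = a g m + 2 then dl g / 2 ^ g else 0 := by
  rw [z_coord, tsum_eq_single (g - G)]
  · rw [zt_coord]
    have e1 : G + (g - G) = g := by omega
    rw [e1]
    by_cases hi : i = a g m + 2
    · rw [if_pos hi, if_pos (by rw [hi]), mul_one]
    · rw [if_neg hi, if_neg, mul_zero]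
      intro hc
      exact hi (hh_inj hc).2
  · intro t ht
    rw [zt_coord, if_neg, mul_zero]
    intro hc
    have := (hh_inj hc).1
    omega

/-- corrected vector -/
noncomputable def cv (G m : ℕ) (y : X) : X := y + (y 0) • z G m

lemma cv_coord (G m : ℕ) (y : X) (h : ℕ) : (cv G m y) h = y h + y 0 * (z G m) h := rfl

lemma cv_norm (G m : ℕ) (y : X) : ‖cv G m y‖ ≤ 3 * ‖y‖ := by
  unfold cv
  have h1 := norm_apply_le y 0
  calc ‖y + (y 0) • z G m‖ ≤ ‖y‖ + ‖(y 0) • z G m‖ := norm_add_le _ _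
    _ = ‖y‖ + ‖y 0‖ * ‖z G m‖ := by rw [norm_smul]
    _ ≤ ‖y‖ + ‖y‖ * 2 := by
        gcongr
        exact z_norm2 G m
    _ = 3 * ‖y‖ := by ring

lemma f_cv {G m h : ℕ} {y : X} (hA : Act h) (hG : G ≤ gg h) (hm : Good m)
    (hy : ∀ h, 1 ≤ h → G ≤ gg h → y h = 0) :
    f h (cv G m y) = 0 ∨ (ii h = a (gg h) m + 2 ∧ |f h (cv G m y)| ≤ ‖y‖) := by
  have h2 : (0 : ℝ) < 2 ^ gg h := by positivity
  have hgood := hm (gg h)
  rcases Nat.lt_or_eq_of_le (Nat.succ_le_of_lt hA.2) with h3 | h3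
  · rw [f_first hA.1 h3, cv_coord, hy h hA.1 hG, zero_add]
    have hz : (z G m) h = if ii h = a (gg h) m + 2 then dl (gg h) / 2 ^ (gg h) else 0 := by
      have := z_hh (m := m) (i := ii h) hG
      rwa [hh_self hA.1] at this
    rw [hz]
    by_cases hi : ii h = a (gg h) m + 2
    · right
      refine ⟨hi, ?_⟩
      rw [if_pos hi]
      have e1 : (2 : ℝ) ^ gg h * (y 0 * (dl (gg h) / 2 ^ gg h)) = dl (gg h) * y 0 := by
        field_simp
      rw [e1, abs_mul, abs_of_pos (dl_pos _)]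
      have h4 := norm_apply_le y 0
      rw [Real.norm_eq_abs] at h4
      calc dl (gg h) * |y 0| ≤ 1 * ‖y‖ :=
            mul_le_mul (dl_le _) h4 (abs_nonneg _) (by norm_num)
        _ = ‖y‖ := one_mul _
    · left
      rw [if_neg hi, mul_zero, mul_zero]
  · left
    rw [f_last hA.1 h3, cv_coord, z_zero, mul_zero, add_zero]
    have h4 : ∑ i ∈ range (b (gg h) - 1), (cv G m y) (hh (gg h) i) = y 0 * (dl (gg h) / 2 ^ gg h) := by
      rw [Finset.sum_eq_single (a (gg h) m + 2)]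
      · rw [cv_coord, z_hh hG, if_pos rfl, hy _ (by unfold hh; omega) (by rw [gg_hh]; exact hG), zero_add]
      · intro i _ hi
        rw [cv_coord, z_hh hG, if_neg hi, hy _ (by unfold hh; omega) (by rw [gg_hh]; exact hG), mul_zero,
          add_zero]
      · intro hc
        exfalso
        apply hc
        rw [Finset.mem_range]
        omega
    rw [h4]
    field_simp
    ring

/-- general estimate of `T` -/
lemma T_le (j : ℤ) (u : X) (h0 : sel j ≠ 0) :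
    ‖T j u‖ ≤ (1 / 4 : ℝ) ^ j.natAbs * ‖u‖ + (1 / 4 : ℝ) ^ (j - pp (sel j)).natAbs * |f (sel j) u| := by
  obtain ⟨hA, hE⟩ := sel_spec h0
  set h := sel j with hh
  have hj : 0 < j := by
    have h1 := (win hA hE).1
    have h2 : (0 : ℤ) < M h := by exact_mod_cast M_pos _
    omega
  rw [T_apply, ← hh, Rk_apply, norm_smul, Real.norm_of_nonneg (by positivity)]
  have h4 : ((4 : ℝ) ^ j.natAbs)⁻¹ = (1 / 4 : ℝ) ^ j.natAbs := by rw [one_div, inv_pow]
  rw [h4]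
  have h2g : (0 : ℝ) < 2 ^ gg h := by positivity
  have hc : (1 / 4 : ℝ) ^ j.natAbs * cw h j * ((2 : ℝ) ^ gg h)⁻¹ ≤ (1 / 4 : ℝ) ^ (j - pp h).natAbs := by
    have h5 : (Ex h j).toNat + 2 * (j - pp h).natAbs ≤ 2 * j.natAbs + gg h := by
      unfold Ex at hE ⊢
      rw [Int.abs_eq_natAbs] at hE ⊢
      omega
    have h6 : (2 : ℝ) ^ ((Ex h j).toNat + 2 * (j - pp h).natAbs) ≤ 2 ^ (2 * j.natAbs + gg h) :=
      pow_le_pow_right₀ (by norm_num) h5
    rw [pow_add, pow_add, pow_mul, pow_mul] at h6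
    norm_num at h6
    unfold cw
    rw [one_div, inv_pow, inv_pow]
    rw [← div_eq_mul_inv, inv_mul_eq_div, div_div, div_le_iff₀ (by positivity), inv_mul_eq_div,
      le_div_iff₀ (by positivity)]
    exact h6
  have hc1 : |cw h j - 1| ≤ cw h j := by
    have : 1 ≤ cw h j := by
      unfold cw
      exact one_le_pow₀ (by norm_num)
    rw [abs_le]
    constructor <;> linarith
  calc (1 / 4 : ℝ) ^ j.natAbs * ‖u + ((cw h j - 1) * f h u) • w h‖
      ≤ (1 / 4 : ℝ) ^ j.natAbs * (‖u‖ + ‖((cw h j - 1) * f h u) • w h‖) := by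
        gcongr
        exact norm_add_le _ _
    _ = (1 / 4 : ℝ) ^ j.natAbs * ‖u‖ + (1 / 4 : ℝ) ^ j.natAbs * (|cw h j - 1| * |f h u| * ((2 : ℝ) ^ gg h)⁻¹) := by
        rw [norm_smul, norm_w, Real.norm_eq_abs, abs_mul, mul_add]
    _ ≤ (1 / 4 : ℝ) ^ j.natAbs * ‖u‖ + (1 / 4 : ℝ) ^ j.natAbs * (cw h j * |f h u| * ((2 : ℝ) ^ gg h)⁻¹) := by
        gcongr
    _ = (1 / 4 : ℝ) ^ j.natAbs * ‖u‖ + ((1 / 4 : ℝ) ^ j.natAbs * cw h j * ((2 : ℝ) ^ gg h)⁻¹) * |f h u| := by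
        ring
    _ ≤ _ := by gcongr

lemma pow_shift (c : ℝ) (hc0 : 0 < c) (hc1 : c ≤ 1) {s t L : ℕ} (h : s ≤ t + L) :
    c ^ t ≤ (c ^ L)⁻¹ * c ^ s := by
  rw [inv_mul_eq_div, le_div_iff₀ (by positivity), ← pow_add]
  exact pow_le_pow_of_le_one hc0.le hc1 h

/-- main pointwise estimate -/
lemma est {m m' G L N k : ℕ} {y : X} {n : ℤ} (hm : Good m) (hm' : Good m')
    (hd : (M N : ℤ) ≤ |(m : ℤ) - m'|) (hkN : k ≤ N + 1) (hn : |n| ≤ L)
    (hy : ∀ h, 1 ≤ h → G ≤ gg h → y h = 0) (hG : ∀ h, Act h → gg h < G → h + 1 < k)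
    (hL : 4 * L ≤ M (k - 1)) :
    ∃ h, N ≤ h ∧ ‖T (n + ((m : ℤ) - m')) (cv G m y)‖ ≤ 4 ^ L * (3 * ‖y‖) *
      ((1 / 4 : ℝ) ^ ((m : ℤ) - m').natAbs +
        (1 / 32 : ℝ) ^ h * (1 / 2 : ℝ) ^ ((m : ℤ) - m' - pp h).natAbs) := by
  set d : ℤ := (m : ℤ) - m' with hdd
  set j : ℤ := n + d with hj
  have hMN : M (k - 1) ≤ M N := M_le (by omega)
  have hMN' : (M (k - 1) : ℤ) ≤ M N := by exact_mod_cast hMN
  have hL' : 4 * (L : ℤ) ≤ M (k - 1) := by exact_mod_cast hL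
  have hMN0 : (0 : ℤ) < M N := by exact_mod_cast M_pos N
  obtain ⟨hn1, hn2⟩ := abs_le.1 hn
  have hyn := norm_nonneg y
  have hcv := cv_norm G m y
  have hjd : d.natAbs ≤ j.natAbs + L := by omega
  have h4L : ((1 / 4 : ℝ) ^ L)⁻¹ = 4 ^ L := by rw [one_div, inv_pow, inv_inv]
  have h2L : ((1 / 2 : ℝ) ^ L)⁻¹ = 2 ^ L := by rw [one_div, inv_pow, inv_inv]
  have hj4 : (1 / 4 : ℝ) ^ j.natAbs ≤ 4 ^ L * (1 / 4 : ℝ) ^ d.natAbs := by
    rw [← h4L]
    exact pow_shift _ (by norm_num) (by norm_num) hjd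
  by_cases h0 : sel j = 0
  · refine ⟨N, le_rfl, ?_⟩
    rw [T_apply, h0, Rk_zero, norm_smul, Real.norm_of_nonneg (by positivity)]
    have h4 : ((4 : ℝ) ^ j.natAbs)⁻¹ = (1 / 4 : ℝ) ^ j.natAbs := by rw [one_div, inv_pow]
    rw [h4]
    calc (1 / 4 : ℝ) ^ j.natAbs * ‖cv G m y‖ ≤ (4 ^ L * (1 / 4 : ℝ) ^ d.natAbs) * (3 * ‖y‖) := by
          gcongr
      _ = 4 ^ L * (3 * ‖y‖) * ((1 / 4 : ℝ) ^ d.natAbs + 0) := by ring
      _ ≤ _ := by
          gcongr
          positivity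
  · obtain ⟨hA, hE⟩ := sel_spec h0
    have hT := T_le j (cv G m y) h0
    set h := sel j with hh
    obtain ⟨w1, w2⟩ := win hA hE
    have hMh : (0 : ℤ) < M h := by exact_mod_cast M_pos h
    -- d > 0
    have hdpos : 0 < d := by
      by_contra hc
      push Not at hc
      rw [abs_of_nonpos hc] at hd
      omega
    rw [abs_of_pos hdpos] at hd
    have hNh : N ≤ h := by
      have : (M N : ℤ) < M (h + 1) := by omega
      have := M_inj (show M N < M (h + 1) by exact_mod_cast this)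
      omega
    refine ⟨h, hNh, ?_⟩
    have hgG : G ≤ gg h := by
      by_contra hc
      push Not at hc
      have := hG h hA hc
      omega
    have hMg := act_le hA
    rcases f_cv hA hgG hm hy with hf | ⟨hi, hf⟩
    · rw [hf, abs_zero, mul_zero, add_zero] at hT
      refine hT.trans ?_
      calc (1 / 4 : ℝ) ^ j.natAbs * ‖cv G m y‖ ≤ (4 ^ L * (1 / 4 : ℝ) ^ d.natAbs) * (3 * ‖y‖) := by
            gcongr
        _ = 4 ^ L * (3 * ‖y‖) * ((1 / 4 : ℝ) ^ d.natAbs + 0) := by ring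
        _ ≤ _ := by
            gcongr
            positivity
    · -- the hole
      have hhole : (M (gg h) : ℤ) < |d - pp h| := by
        obtain ⟨c, hc⟩ := M_dvd (gg_lt hA.1)
        have h1 := hole (m := m) (m' := m') (g := gg h) (c := c) hm'
        have h2 : (a (gg h) m + 2) * M (gg h) + c * M (gg h + 1) = pp h := by
          unfold pp
          rw [hi, hc, mul_comm c]
        rw [h2] at h1
        exact h1
      rw [Int.abs_eq_natAbs] at hhole
      have hbig : M (gg h) ≤ (j - pp h).natAbs + L := by omega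
      have hdj : (d - pp h).natAbs ≤ (j - pp h).natAbs + L := by omega
      have h41 : (1 / 4 : ℝ) ^ (j - pp h).natAbs ≤
          4 ^ L * ((1 / 32 : ℝ) ^ h * (1 / 2 : ℝ) ^ (d - pp h).natAbs) := by
        have e1 : (1 / 4 : ℝ) ^ (j - pp h).natAbs =
            (1 / 2 : ℝ) ^ (j - pp h).natAbs * (1 / 2 : ℝ) ^ (j - pp h).natAbs := by
          rw [← mul_pow]; norm_num
        have e2 : (4 : ℝ) ^ L = 2 ^ L * 2 ^ L := by rw [← mul_pow]; norm_num
        have e3 : (1 / 2 : ℝ) ^ (j - pp h).natAbs ≤ 2 ^ L * (1 / 2 : ℝ) ^ M (gg h) := by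
          rw [← h2L]
          exact pow_shift _ (by norm_num) (by norm_num) hbig
        have e4 : (1 / 2 : ℝ) ^ (j - pp h).natAbs ≤ 2 ^ L * (1 / 2 : ℝ) ^ (d - pp h).natAbs := by
          rw [← h2L]
          exact pow_shift _ (by norm_num) (by norm_num) hdj
        have e5 : (1 / 2 : ℝ) ^ M (gg h) ≤ (1 / 32 : ℝ) ^ h := by
          calc (1 / 2 : ℝ) ^ M (gg h) ≤ (1 / 2 : ℝ) ^ (5 * h) :=
                pow_le_pow_of_le_one (by norm_num) (by norm_num) hMg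
            _ = (1 / 32 : ℝ) ^ h := by rw [pow_mul]; norm_num
        rw [e1, e2]
        calc (1 / 2 : ℝ) ^ (j - pp h).natAbs * (1 / 2 : ℝ) ^ (j - pp h).natAbs
            ≤ (2 ^ L * (1 / 2 : ℝ) ^ M (gg h)) * (2 ^ L * (1 / 2 : ℝ) ^ (d - pp h).natAbs) := by
              gcongr
          _ ≤ (2 ^ L * (1 / 32 : ℝ) ^ h) * (2 ^ L * (1 / 2 : ℝ) ^ (d - pp h).natAbs) := by
              gcongr
          _ = _ := by ring
      refine hT.trans ?_
      calc (1 / 4 : ℝ) ^ j.natAbs * ‖cv G m y‖ + (1 / 4 : ℝ) ^ (j - pp h).natAbs * |f h (cv G m y)|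
          ≤ (4 ^ L * (1 / 4 : ℝ) ^ d.natAbs) * (3 * ‖y‖) +
            (4 ^ L * ((1 / 32 : ℝ) ^ h * (1 / 2 : ℝ) ^ (d - pp h).natAbs)) * (3 * ‖y‖) := by
            gcongr
            linarith
        _ = _ := by ring

end Pool.Agent.X331.SF
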