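import Mathlib
import Pool.Agent.X331.SF.Vec
import Pool.Agent.X331.SF.Dens

namespace Pool.Agent.X331.SF

open Filter Topology Finset

abbrev Q := (ℤ × ℕ) →₀ ℚ
abbrev Data := Q × ℕ × ℕ

noncomputable def yq (q : Q) (n : ℤ) : X :=
  ∑ s ∈ q.support, if s.1 = n then (q s : ℝ) • e s.2 else 0

noncomputable def vs (s : ℤ × ℕ) : Z := sg s.1 (T s.1 (e s.2))

noncomputable def Yt (q : Q) : Z := ∑ s ∈ q.support, (q s : ℝ) • vs s

lemma Yt_eq {q : Q} {L : ℕ} (hL : ∀ s ∈ q.support, |s.1| ≤ (L : ℤ)) :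
    Yt q = ∑ n ∈ Icc (-(L : ℤ)) L, sg n (T n (yq q n)) := by
  have h1 : ∀ n : ℤ, (sg n (T n (yq q n)) : Z) =
      ∑ s ∈ q.support, if s.1 = n then (q s : ℝ) • vs s else 0 := by
    intro n
    unfold yq
    rw [map_sum, map_sum]
    apply Finset.sum_congr rfl
    intro s _
    split_ifs with h
    · rw [map_smul, map_smul, vs, h]
    · rw [map_zero, map_zero]
  rw [Finset.sum_congr rfl fun n _ => h1 n, Finset.sum_comm]
  unfold Yt
  apply Finset.sum_congr rfl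
  intro s hs
  rw [Finset.sum_ite_eq, if_pos]
  rw [Finset.mem_Icc]
  exact abs_le.1 (hL s hs)

structure GoodK (k : ℕ) (D : Data) : Prop where
  sup : ∀ s ∈ D.1.support, |s.1| ≤ (D.2.1 : ℤ)
  y0 : ∀ s ∈ D.1.support, 1 ≤ s.2 → gg s.2 < D.2.2
  gG : ∀ h, Act h → gg h < D.2.2 → h + 1 < k
  LL : 4 * D.2.1 ≤ M (k - 1)
  nb : 4 ^ D.2.1 * (3 * ∑ n ∈ Icc (-(D.2.1 : ℤ)) D.2.1, ‖yq D.1 n‖) ≤ 2 ^ k

lemma yq_zero {q : Q} {G : ℕ} (h0 : ∀ s ∈ q.support, 1 ≤ s.2 → gg s.2 < G) (n : ℤ) {h : ℕ}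
    (h1 : 1 ≤ h) (h2 : G ≤ gg h) : (yq q n) h = 0 := by
  unfold yq
  have : (∑ s ∈ q.support, if s.1 = n then (q s : ℝ) • e s.2 else 0 : X) h =
      ∑ s ∈ q.support, (if s.1 = n then (q s : ℝ) • e s.2 else 0 : X) h := by
    have := map_sum (ev h : X →L[ℝ] ℝ) (fun s : ℤ × ℕ => (if s.1 = n then (q s : ℝ) • e s.2 else 0 : X))
      q.support
    exact this
  rw [this]
  apply Finset.sum_eq_zero
  intro s hs
  split_ifs with h3
  · show (q s : ℝ) * (e s.2) h = 0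
    rw [e_apply, if_neg, mul_zero]
    intro hc
    have := h0 s hs (by omega)
    rw [← hc] at this
    omega
  · rfl

/-- block -/
noncomputable def Vk (D : Data) (m : ℕ) : Z :=
  ∑ n ∈ Icc (-(D.2.1 : ℤ)) D.2.1, sg (n + m) (T (n + m) (cv D.2.2 m (yq D.1 n)))

lemma sh_pow_sg (m : ℕ) (i : ℤ) (v : X) :
    (sh ^ m) (sg i (T i v)) = (sg (i - m) (T (i - m) v) : Z) := by
  ext n : 2
  rw [sh_pow, sg_apply, sg_apply]
  by_cases h : n = i - m
  · have : n + m = i := by rw [h]; ring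
    rw [if_pos h, if_pos this, this, Ti_T, h]
  · have : n + m ≠ i := fun hc => h (by rw [← hc]; ring)
    rw [if_neg h, if_neg this, map_zero, map_zero]

lemma sh_Vk (D : Data) (m m' : ℕ) : (sh ^ m') (Vk D m) =
    ∑ n ∈ Icc (-(D.2.1 : ℤ)) D.2.1,
      sg (n + ((m : ℤ) - m')) (T (n + ((m : ℤ) - m')) (cv D.2.2 m (yq D.1 n))) := by
  unfold Vk
  rw [map_sum]
  apply Finset.sum_congr rfl
  intro n _
  rw [sh_pow_sg, add_sub_assoc]

noncomputable def be (d : ℤ) : ℝ :=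
  (1 / 2 : ℝ) ^ d.natAbs + ∑' h : ℕ, (1 / 8 : ℝ) ^ h * (1 / 2 : ℝ) ^ (d - pp h).natAbs

lemma sum_half : Summable fun d : ℤ => (1 / 2 : ℝ) ^ d.natAbs := by
  rw [summable_int_iff_summable_nat_and_neg]
  constructor
  · simpa using summable_geometric_two
  · simpa using summable_geometric_two

lemma inner_summable (d : ℤ) : Summable fun h : ℕ => (1 / 8 : ℝ) ^ h * (1 / 2 : ℝ) ^ (d - pp h).natAbs := by
  refine Summable.of_nonneg_of_le (fun h => by positivity) (fun h => ?_)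
    (summable_geometric_of_lt_one (r := (1 / 8 : ℝ)) (by norm_num) (by norm_num))
  have : (1 / 2 : ℝ) ^ (d - pp h).natAbs ≤ 1 := pow_le_one₀ (by norm_num) (by norm_num)
  calc (1 / 8 : ℝ) ^ h * (1 / 2 : ℝ) ^ (d - pp h).natAbs ≤ (1 / 8 : ℝ) ^ h * 1 := by gcongr
    _ = (1 / 8 : ℝ) ^ h := mul_one _

def eqv : ℕ × ℤ ≃ ℕ × ℤ where
  toFun p := (p.1, p.2 - pp p.1)
  invFun p := (p.1, p.2 + pp p.1)
  left_inv p := by simp
  right_inv p := by simp

lemma sum_eighth : Summable fun n : ℕ => (1 / 8 : ℝ) ^ n :=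
  summable_geometric_of_lt_one (by norm_num) (by norm_num)

lemma sum_prod : Summable fun p : ℕ × ℤ => (1 / 8 : ℝ) ^ p.1 * (1 / 2 : ℝ) ^ p.2.natAbs := by
  have h1 : (0 : ℕ → ℝ) ≤ fun n : ℕ => (1 / 8 : ℝ) ^ n := by
    intro n
    show (0 : ℝ) ≤ (1 / 8 : ℝ) ^ n
    positivity
  have h2 : (0 : ℤ → ℝ) ≤ fun d : ℤ => (1 / 2 : ℝ) ^ d.natAbs := by
    intro n
    show (0 : ℝ) ≤ (1 / 2 : ℝ) ^ n.natAbs
    positivity
  exact sum_eighth.mul_of_nonneg sum_half h1 h2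

lemma be_summable : Summable be := by
  have h1 := sum_prod
  have h2' := (eqv.summable_iff (f := fun p : ℕ × ℤ => (1 / 8 : ℝ) ^ p.1 * (1 / 2 : ℝ) ^ p.2.natAbs)).2 h1
  have h2 : Summable fun p : ℕ × ℤ => (1 / 8 : ℝ) ^ p.1 * (1 / 2 : ℝ) ^ (p.2 - pp p.1).natAbs := by
    refine h2'.congr fun p => ?_
    simp only [Function.comp, eqv, Equiv.coe_fn_mk]
  have h3 : Summable fun p : ℤ × ℕ => (1 / 8 : ℝ) ^ p.2 * (1 / 2 : ℝ) ^ (p.1 - pp p.2).natAbs :=
    h2.prod_symm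
  have h4 := h3.prod
  have h5 := sum_half.add h4
  exact h5

lemma be_nonneg (d : ℤ) : 0 ≤ be d := by
  unfold be
  have : 0 ≤ ∑' h : ℕ, (1 / 8 : ℝ) ^ h * (1 / 2 : ℝ) ^ (d - pp h).natAbs :=
    tsum_nonneg fun h => by positivity
  positivity

lemma key {m m' κ k : ℕ} {D : Data} (hm : m ∈ A k) (hg : GoodK k D) (hm' : Good m')
    (hd : (M (max k κ - 1) : ℤ) ≤ |(m : ℤ) - m'|) :
    ‖(sh ^ m') (Vk D m)‖ ≤ 4 * (1 / 2 : ℝ) ^ κ * be ((m : ℤ) - m') := by
  set d : ℤ := (m : ℤ) - m' with hdd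
  set N := max k κ - 1 with hN
  have hdk : k + κ ≤ d.natAbs := by
    have h1 := M_ge N
    rw [Int.abs_eq_natAbs] at hd
    have h2 : M N ≤ d.natAbs := by exact_mod_cast hd
    omega
  have hpt : ∀ n ∈ Icc (-(D.2.1 : ℤ)) D.2.1, ‖T (n + d) (cv D.2.2 m (yq D.1 n))‖ ≤
      4 ^ D.2.1 * (3 * ‖yq D.1 n‖) * ((1 / 2 : ℝ) ^ k * (4 * (1 / 2 : ℝ) ^ κ * be d)) := by
    intro n hn
    obtain ⟨h, hNh, hT⟩ := est (y := yq D.1 n) (k := k) (A_good hm) hm' hd (by omega)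
      (abs_le.2 (Finset.mem_Icc.1 hn)) (fun h h1 h2 => yq_zero hg.y0 n h1 h2) hg.gG hg.LL
    refine hT.trans ?_
    apply mul_le_mul_of_nonneg_left _ (by positivity)
    have e1 : (1 / 4 : ℝ) ^ d.natAbs ≤ (1 / 2 : ℝ) ^ k * (1 / 2 : ℝ) ^ κ * (1 / 2 : ℝ) ^ d.natAbs := by
      have : (1 / 4 : ℝ) ^ d.natAbs = (1 / 2 : ℝ) ^ d.natAbs * (1 / 2 : ℝ) ^ d.natAbs := by
        rw [← mul_pow]; norm_num
      rw [this, ← pow_add (1 / 2 : ℝ) k κ]
      exact mul_le_mul_of_nonneg_right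
        (pow_le_pow_of_le_one (by norm_num) (by norm_num) hdk) (by positivity)
    have e2 : (1 / 32 : ℝ) ^ h ≤ 4 * ((1 / 2 : ℝ) ^ k * (1 / 2 : ℝ) ^ κ) * (1 / 8 : ℝ) ^ h := by
      have h1 : (1 / 32 : ℝ) ^ h = (1 / 2 : ℝ) ^ (2 * h) * (1 / 8 : ℝ) ^ h := by
        rw [pow_mul, ← mul_pow]; norm_num
      rw [h1, ← pow_add]
      gcongr
      have h2 : (1 / 2 : ℝ) ^ (2 * h + 2) ≤ (1 / 2 : ℝ) ^ (k + κ) :=
        pow_le_pow_of_le_one (by norm_num) (by norm_num) (by omega)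
      rw [pow_add _ (2 * h) 2] at h2
      linarith
    have e3 : (1 / 8 : ℝ) ^ h * (1 / 2 : ℝ) ^ (d - pp h).natAbs ≤
        ∑' h : ℕ, (1 / 8 : ℝ) ^ h * (1 / 2 : ℝ) ^ (d - pp h).natAbs :=
      (inner_summable d).le_tsum h (fun i _ => by positivity)
    set t := ∑' h : ℕ, (1 / 8 : ℝ) ^ h * (1 / 2 : ℝ) ^ (d - pp h).natAbs with ht
    have hbe : be d = (1 / 2 : ℝ) ^ d.natAbs + t := rfl
    rw [hbe]
    have hp : (0 : ℝ) < (1 / 2 : ℝ) ^ k * (1 / 2 : ℝ) ^ κ := by positivity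
    calc (1 / 4 : ℝ) ^ d.natAbs + (1 / 32 : ℝ) ^ h * (1 / 2 : ℝ) ^ (d - pp h).natAbs
        ≤ (1 / 2 : ℝ) ^ k * (1 / 2 : ℝ) ^ κ * (1 / 2 : ℝ) ^ d.natAbs +
          (4 * ((1 / 2 : ℝ) ^ k * (1 / 2 : ℝ) ^ κ) * (1 / 8 : ℝ) ^ h) * (1 / 2 : ℝ) ^ (d - pp h).natAbs := by
          gcongr
      _ = (1 / 2 : ℝ) ^ k * (1 / 2 : ℝ) ^ κ * (1 / 2 : ℝ) ^ d.natAbs +
          4 * ((1 / 2 : ℝ) ^ k * (1 / 2 : ℝ) ^ κ) * ((1 / 8 : ℝ) ^ h * (1 / 2 : ℝ) ^ (d - pp h).natAbs) := by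
          ring
      _ ≤ 4 * ((1 / 2 : ℝ) ^ k * (1 / 2 : ℝ) ^ κ) * (1 / 2 : ℝ) ^ d.natAbs +
          4 * ((1 / 2 : ℝ) ^ k * (1 / 2 : ℝ) ^ κ) * t := by
          apply add_le_add
          · apply mul_le_mul_of_nonneg_right _ (by positivity)
            linarith
          · exact mul_le_mul_of_nonneg_left e3 (by positivity)
      _ = _ := by ring
  rw [sh_Vk]
  calc ‖∑ n ∈ Icc (-(D.2.1 : ℤ)) D.2.1, (sg (n + d) (T (n + d) (cv D.2.2 m (yq D.1 n))) : Z)‖
      ≤ ∑ n ∈ Icc (-(D.2.1 : ℤ)) D.2.1, ‖T (n + d) (cv D.2.2 m (yq D.1 n))‖ := by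
        refine (norm_sum_le _ _).trans (le_of_eq ?_)
        apply Finset.sum_congr rfl
        intro n _
        rw [norm_sg]
    _ ≤ ∑ n ∈ Icc (-(D.2.1 : ℤ)) D.2.1,
        4 ^ D.2.1 * (3 * ‖yq D.1 n‖) * ((1 / 2 : ℝ) ^ k * (4 * (1 / 2 : ℝ) ^ κ * be d)) :=
        Finset.sum_le_sum hpt
    _ = (4 ^ D.2.1 * (3 * ∑ n ∈ Icc (-(D.2.1 : ℤ)) D.2.1, ‖yq D.1 n‖)) *
        ((1 / 2 : ℝ) ^ k * (4 * (1 / 2 : ℝ) ^ κ * be d)) := by
        rw [Finset.mul_sum, Finset.mul_sum, Finset.sum_mul]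
    _ ≤ 2 ^ k * ((1 / 2 : ℝ) ^ k * (4 * (1 / 2 : ℝ) ^ κ * be d)) := by
        apply mul_le_mul_of_nonneg_right hg.nb
        have := be_nonneg d
        positivity
    _ = 4 * (1 / 2 : ℝ) ^ κ * be d := by
        rw [← mul_assoc, ← mul_pow]
        norm_num

section main
variable (data : ℕ → Data)

open Classical in
noncomputable def V (m : ℕ) : Z :=
  if h : ∃ k, m ∈ A k ∧ GoodK k (data k) then Vk (data h.choose) m else 0

lemma V_eq {m k : ℕ} (hm : m ∈ A k) (hg : GoodK k (data k)) : V data m = Vk (data k) m := by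
  have hex : ∃ k, m ∈ A k ∧ GoodK k (data k) := ⟨k, hm, hg⟩
  unfold V
  rw [dif_pos hex, disj hex.choose_spec.1 hm]

lemma V_bound {m m' κ : ℕ} (hm' : Good m')
    (hd : ∀ k, m ∈ A k → (M (max k κ - 1) : ℤ) ≤ |(m : ℤ) - m'|) :
    ‖(sh ^ m') (V data m)‖ ≤ 4 * (1 / 2 : ℝ) ^ κ * be ((m : ℤ) - m') := by
  by_cases h : ∃ k, m ∈ A k ∧ GoodK k (data k)
  · obtain ⟨k, h1, h2⟩ := h
    rw [V_eq data h1 h2]
    exact key h1 h2 hm' (hd k h1)
  · unfold V
    rw [dif_neg h, map_zero, norm_zero]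
    have := be_nonneg ((m : ℤ) - m')
    positivity

lemma V_norm (m : ℕ) : ‖V data m‖ ≤ 4 * be m := by
  have h1 := V_bound data (m := m) (m' := 0) (κ := 0) good_zero (by
    intro k hk
    have h2 := A_ge hk
    have h3 : M (max k 0 - 1) ≤ M k := M_le (by omega)
    have h4 : ((m : ℤ) - (0 : ℕ)) = m := by simp
    rw [h4, abs_of_nonneg (by positivity)]
    exact_mod_cast h3.trans h2)
  rw [pow_zero, pow_zero, mul_one] at h1
  have h4 : ((m : ℤ) - (0 : ℕ)) = m := by simp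
  rw [h4] at h1
  exact h1

lemma V_summable : Summable (V data) := by
  have h1 : Summable fun m : ℕ => 4 * be m :=
    (be_summable.comp_injective (i := fun m : ℕ => (m : ℤ)) Nat.cast_injective).mul_left 4
  exact Summable.of_norm_bounded h1 (V_norm data)

/-- the frequently hypercyclic vector -/
noncomputable def xx : Z := ∑' m, V data m

lemma main_est {k m' : ℕ} (hm : m' ∈ A k) (hg : GoodK k (data k)) :
    ‖(sh ^ m') (xx data) - Yt (data k).1‖ ≤
      (∑ n ∈ Icc (-((data k).2.1 : ℤ)) (data k).2.1, ‖T n‖ * ‖yq (data k).1 n‖) *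
        ((1 / 2 : ℝ) ^ (data k).2.2 * 2) + 4 * (1 / 2 : ℝ) ^ k * ∑' d : ℤ, be d := by
  have e1 : (sh ^ m') (xx data) = (sh ^ m') (V data m') +
      ∑' m, (sh ^ m') (if m = m' then 0 else V data m) := by
    have hs : Summable fun m => if m = m' then 0 else V data m := by
      refine Summable.of_norm_bounded (g := fun m => ‖V data m‖) ?_ ?_
      · have h1 : Summable fun m : ℕ => 4 * be m :=
          (be_summable.comp_injective (i := fun m : ℕ => (m : ℤ)) Nat.cast_injective).mul_left 4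
        exact Summable.of_nonneg_of_le (fun _ => norm_nonneg _) (V_norm data) h1
      · intro m
        split_ifs
        · rw [norm_zero]; exact norm_nonneg _
        · exact le_rfl
    rw [← ContinuousLinearMap.map_tsum _ hs, ← map_add]
    congr 1
    exact (V_summable data).tsum_eq_add_tsum_ite m'
  have e2 : (sh ^ m') (V data m') - Yt (data k).1 =
      ∑ n ∈ Icc (-((data k).2.1 : ℤ)) (data k).2.1,
        (sg n (T n (((yq (data k).1 n) 0) • z (data k).2.2 m')) : Z) := by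
    rw [V_eq data hm hg, sh_Vk, Yt_eq hg.sup, ← Finset.sum_sub_distrib]
    apply Finset.sum_congr rfl
    intro n _
    rw [sub_self, add_zero, ← map_sub, ← map_sub]
    congr 2
    unfold cv
    rw [add_sub_cancel_left]
  have e3 : (sh ^ m') (xx data) - Yt (data k).1 =
      ((sh ^ m') (V data m') - Yt (data k).1) + ∑' m, (sh ^ m') (if m = m' then 0 else V data m) := by
    rw [e1]; abel
  rw [e3]
  refine (norm_add_le _ _).trans ?_
  apply add_le_add
  · rw [e2, Finset.sum_mul]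
    refine (norm_sum_le _ _).trans ?_
    apply Finset.sum_le_sum
    intro n _
    rw [norm_sg]
    calc ‖T n (((yq (data k).1 n) 0) • z (data k).2.2 m')‖
        ≤ ‖T n‖ * ‖((yq (data k).1 n) 0) • z (data k).2.2 m'‖ := (T n).le_opNorm _
      _ = ‖T n‖ * (‖(yq (data k).1 n) 0‖ * ‖z (data k).2.2 m'‖) := by rw [norm_smul]
      _ ≤ ‖T n‖ * (‖yq (data k).1 n‖ * ((1 / 2 : ℝ) ^ (data k).2.2 * 2)) := by
          gcongr
          · exact norm_apply_le _ _
          · exact z_norm _ _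
      _ = _ := by ring
  · have hinj : Function.Injective fun m : ℕ => (m : ℤ) - m' := by
      intro m1 m2 h
      have : (m1 : ℤ) = m2 := by simpa using h
      exact_mod_cast this
    have hsum : Summable fun m : ℕ => 4 * (1 / 2 : ℝ) ^ k * be ((m : ℤ) - m') :=
      (be_summable.comp_injective hinj).mul_left _
    have hle : ∑' m : ℕ, 4 * (1 / 2 : ℝ) ^ k * be ((m : ℤ) - m') ≤
        4 * (1 / 2 : ℝ) ^ k * ∑' d : ℤ, be d := by
      rw [tsum_mul_left]
      apply mul_le_mul_of_nonneg_left _ (by positivity)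
      exact tsum_comp_le_tsum_of_inj be_summable be_nonneg hinj
    refine le_trans (tsum_of_norm_bounded hsum.hasSum ?_) hle
    intro m
    split_ifs with h
    · rw [map_zero, norm_zero]
      have := be_nonneg ((m : ℤ) - m')
      positivity
    · exact V_bound data (A_good hm) fun k' hk' => sep hk' hm h

end main

/-! ### density of the targets -/

noncomputable def YtH : Q →+ Z := Finsupp.liftAddHom fun s =>
  { toFun := fun c : ℚ => (c : ℝ) • vs s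
    map_zero' := by simp
    map_add' := fun c c' => by push_cast; rw [add_smul] }

lemma YtH_eq (q : Q) : YtH q = Yt q := by
  unfold YtH
  rw [Finsupp.liftAddHom_apply]
  rfl

lemma mem_of_hasSum {ι : Type} {K : AddSubgroup Z} (hK : IsClosed (K : Set Z)) {g : ι → Z} {x : Z}
    (h : HasSum g x) (hg : ∀ i, g i ∈ K) : x ∈ K :=
  hK.mem_of_tendsto h (Eventually.of_forall fun s => K.sum_mem fun i _ => hg i)

lemma dense_Yt : DenseRange Yt := by
  set K : AddSubgroup Z := YtH.range.topologicalClosure with hKdef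
  have hK : IsClosed (K : Set Z) := AddSubgroup.isClosed_topologicalClosure _
  have h1 : ∀ s, ∀ r : ℝ, r • vs s ∈ K := by
    intro s r
    refine Rat.denseRange_cast.induction_on (p := fun r : ℝ => r • vs s ∈ K) r ?_ ?_
    · exact hK.preimage (continuous_id.smul continuous_const)
    · intro c
      apply AddSubgroup.le_topologicalClosure
      refine ⟨Finsupp.single s c, ?_⟩
      unfold YtH
      rw [Finsupp.liftAddHom_apply_single]
      rfl
  have h2 : ∀ n v, (sg n (T n v) : Z) ∈ K := by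
    intro n v
    have h3 : HasSum (fun h => (sg n (T n (sg h (v h))) : Z)) (sg n (T n v)) :=
      ((hasSum_sg v).mapL (T n)).mapL (sg n)
    refine mem_of_hasSum hK h3 fun h => ?_
    have : (sg h (v h) : X) = v h • e h := by
      unfold e
      rw [← map_smul, smul_eq_mul, mul_one]
    rw [this, map_smul, map_smul]
    exact h1 (n, h) (v h)
  have h3 : ∀ x : Z, x ∈ K := by
    intro x
    refine mem_of_hasSum hK (hasSum_sg x) fun n => ?_
    have := h2 n (Ti n (x n))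
    rwa [T_Ti] at this
  intro x
  have := h3 x
  rw [hKdef] at this
  have h4 : x ∈ closure (Set.range YtH) := this
  have h5 : Set.range YtH = Set.range Yt := by
    ext y
    simp only [Set.mem_range, YtH_eq]
  rwa [h5] at h4

/-- frequent hypercyclicity, quantitative form -/
theorem exists_fh : ∃ x : Z, ∀ U : Set Z, IsOpen U → U.Nonempty →
    ∃ C : ℝ, 0 < C ∧ ∃ N0 : ℕ, ∀ N, N0 ≤ N →
      (N : ℝ) ≤ C * (({m : ℕ | (sh ^ m) x ∈ U} ∩ Set.Iio N).ncard : ℝ) := by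
  obtain ⟨e0, he0⟩ := exists_surjective_nat Data
  set data : ℕ → Data := fun k => e0 (Nat.unpair k).1 with hdata
  refine ⟨xx data, fun U hU hne => ?_⟩
  obtain ⟨q, hq⟩ := dense_Yt.exists_mem_open hU hne
  obtain ⟨ε, hε, hball⟩ := Metric.isOpen_iff.1 hU _ hq
  set L := q.support.sup (fun s => s.1.natAbs) with hL
  set C0 := ∑ n ∈ Icc (-(L : ℤ)) L, ‖T n‖ * ‖yq q n‖ with hC0
  set W0 := 4 ^ L * (3 * ∑ n ∈ Icc (-(L : ℤ)) L, ‖yq q n‖) with hW0
  set B := ∑' d : ℤ, be d with hB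
  have hhalf : Tendsto (fun n : ℕ => (1 / 2 : ℝ) ^ n) atTop (𝓝 0) :=
    tendsto_pow_atTop_nhds_zero_of_lt_one (by norm_num) (by norm_num)
  obtain ⟨G, hG1, hG2⟩ : ∃ G : ℕ, C0 * ((1 / 2 : ℝ) ^ G * 2) < ε / 2 ∧
      q.support.sup (fun s => gg s.2) + 1 ≤ G := by
    have h1 : Tendsto (fun G : ℕ => C0 * ((1 / 2 : ℝ) ^ G * 2)) atTop (𝓝 (C0 * (0 * 2))) :=
      (hhalf.mul_const 2).const_mul C0
    rw [zero_mul, mul_zero] at h1
    exact ((h1.eventually_lt_const (half_pos hε)).and (eventually_ge_atTop _)).exists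
  obtain ⟨c, hc⟩ := he0 (q, L, G)
  obtain ⟨k0, hk0⟩ : ∃ k0 : ℕ, ∀ k, k0 ≤ k → 4 * (1 / 2 : ℝ) ^ k * B < ε / 2 ∧ W0 ≤ 2 ^ k ∧
      M G + 2 ≤ k ∧ L ≤ k := by
    have h1 : Tendsto (fun k : ℕ => 4 * (1 / 2 : ℝ) ^ k * B) atTop (𝓝 (4 * 0 * B)) :=
      (hhalf.const_mul 4).mul_const B
    rw [mul_zero, zero_mul] at h1
    have h2 : Tendsto (fun k : ℕ => (2 : ℝ) ^ k) atTop atTop := tendsto_pow_atTop_atTop_of_one_lt (by norm_num)
    have h3 := (h1.eventually_lt_const (half_pos hε)).and ((h2.eventually_ge_atTop W0).and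
      ((eventually_ge_atTop (M G + 2)).and (eventually_ge_atTop L)))
    exact eventually_atTop.1 h3
  set k := Nat.pair c k0 with hk
  obtain ⟨hk1, hk2, hk3, hk4⟩ := hk0 k (Nat.right_le_pair c k0)
  have hdk : data k = (q, L, G) := by
    rw [hdata]
    simp only [hk, Nat.unpair_pair]
    exact hc
  have hgood : GoodK k (data k) := by
    rw [hdk]
    refine ⟨?_, ?_, ?_, ?_, ?_⟩
    · intro s hs
      have : s.1.natAbs ≤ L := Finset.le_sup (f := fun s : ℤ × ℕ => s.1.natAbs) hs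
      rw [Int.abs_eq_natAbs]
      exact_mod_cast this
    · intro s hs _
      have : gg s.2 ≤ q.support.sup (fun s => gg s.2) :=
        Finset.le_sup (f := fun s : ℤ × ℕ => gg s.2) hs
      show gg s.2 < G
      omega
    · intro h hA hgG
      have h1 := act_le hA
      have h2 : M (gg h) ≤ M G := M_le (le_of_lt hgG)
      omega
    · show 4 * L ≤ M (k - 1)
      have := M_ge (k - 1)
      omega
    · exact hk2
  have hsub : A k ⊆ {m : ℕ | (sh ^ m) (xx data) ∈ U} := by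
    intro m hm
    apply hball
    rw [Metric.mem_ball, dist_eq_norm]
    have h1 := main_est data hm hgood
    rw [hdk] at h1
    calc ‖(sh ^ m) (xx data) - Yt q‖ ≤ C0 * ((1 / 2 : ℝ) ^ G * 2) + 4 * (1 / 2 : ℝ) ^ k * B := h1
      _ < ε / 2 + ε / 2 := add_lt_add hG1 hk1
      _ = ε := by ring
  refine ⟨16 * M (k + 1), ?_, M (k + 1), fun N hN => ?_⟩
  · have : (0 : ℝ) < M (k + 1) := by exact_mod_cast M_pos _
    positivity
  · refine (dens hN).trans ?_
    apply mul_le_mul_of_nonneg_left _ (by positivity)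
    unfold cnt
    exact_mod_cast Set.ncard_le_ncard (Set.inter_subset_inter_left _ hsub)
      ((Set.finite_Iio N).subset Set.inter_subset_right)

end Pool.Agent.X331.SF
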